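import Mathlib
import Pool.Agent.R333.SubR

/-!
# Simultaneous approximation of real algebraic numbers, in the product form

`k ^ (1 + τ) * ∏ i, ‖k ω_i‖` is bounded below for `k ≥ 1` when `1, ω_1, ..., ω_n` are real algebraic
and linearly independent over the rationals (from the subspace theorem in `Pool.Agent.R333.SubR`).
-/

set_option autoImplicit false

open Finset Filter Topology

namespace Pool.Agent.NH20.NF

/-- the distance to the nearest integer -/
noncomputable def nd (x : ℝ) : ℝ := |x - round x|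

lemma nd_nonneg (x : ℝ) : 0 ≤ nd x := abs_nonneg _

lemma nd_le_half (x : ℝ) : nd x ≤ 1 / 2 := abs_sub_round x

lemma nd_le (x : ℝ) (z : ℤ) : nd x ≤ |x - z| := round_le x z

/-- linear independence of `1, ω_1, ..., ω_n` -/
def Ind {n : ℕ} (ω : Fin n → ℝ) : Prop :=
  ∀ (a : ℤ) (b : Fin n → ℤ), (a : ℝ) + ∑ i, (b i : ℝ) * ω i = 0 → a = 0 ∧ b = 0

lemma nd_pos {n : ℕ} {ω : Fin n → ℝ} (hli : Ind ω) (k : ℕ) (hk : 1 ≤ k) (i : Fin n) :
    0 < nd (k * ω i) := by
  classical
  unfold nd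
  rw [abs_pos]
  intro h
  have h1 := hli (-round (k * ω i)) (Pi.single i (k : ℤ)) (by
    rw [Finset.sum_eq_single i]
    · rw [Pi.single_eq_same]
      push_cast
      linarith
    · intro j _ hj
      rw [Pi.single_eq_of_ne hj]
      simp
    · intro hi
      exact absurd (Finset.mem_univ i) hi)
  have h2 := congrFun h1.2 i
  rw [Pi.single_eq_same] at h2
  simp at h2
  omega

lemma exists_low (f : ℕ → ℝ) (hf : ∀ k, 1 ≤ k → 0 < f k) (K : ℕ) :
    ∃ c : ℝ, 0 < c ∧ ∀ k, 1 ≤ k → k ≤ K → c ≤ f k := by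
  induction K with
  | zero => exact ⟨1, one_pos, fun k h1 h2 => by omega⟩
  | succ K ih =>
    obtain ⟨c, hc, h⟩ := ih
    refine ⟨min c (f (K + 1)), lt_min hc (hf _ (by omega)), fun k h1 h2 => ?_⟩
    rcases Nat.lt_or_ge K k with h3 | h3
    · have : k = K + 1 := by omega
      rw [this]
      exact min_le_right _ _
    · exact (min_le_left _ _).trans (h k h1 h3)

/-- the forms -/
noncomputable def Mt {n : ℕ} (ω : Fin n → ℝ) : Matrix (Fin (n + 1)) (Fin (n + 1)) ℝ :=
  Matrix.of fun i => (Fin.cons (fun j => if j = 0 then 1 else 0)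
    (fun i' => fun j => if j = 0 then ω i' else if j = Fin.succ i' then -1 else 0) :
      Fin (n + 1) → Fin (n + 1) → ℝ) i

lemma Mt_zero {n : ℕ} (ω : Fin n → ℝ) (x : Fin (n + 1) → ℤ) :
    ∑ j, Mt ω 0 j * (x j : ℝ) = x 0 := by
  rw [Fin.sum_univ_succ]
  simp [Mt, Fin.succ_ne_zero]

lemma Mt_succ {n : ℕ} (ω : Fin n → ℝ) (x : Fin (n + 1) → ℤ) (i : Fin n) :
    ∑ j, Mt ω i.succ j * (x j : ℝ) = ω i * x 0 - x i.succ := by
  rw [Fin.sum_univ_succ]
  have h1 : ∀ j : Fin n, Mt ω i.succ j.succ * (x j.succ : ℝ) =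
      if j = i then -(x i.succ : ℝ) else 0 := by
    intro j
    simp only [Mt, Matrix.of_apply, Fin.cons_succ, Fin.succ_ne_zero, if_false, Fin.succ_inj]
    split_ifs with h
    · rw [h]; ring
    · ring
  simp_rw [h1]
  rw [Finset.sum_ite_eq' Finset.univ i]
  simp [Mt]
  ring

theorem schmidt_aux {n : ℕ} (ω : Fin n → ℝ) (halg : ∀ i, IsAlgebraic ℚ (ω i)) (hli : Ind ω)
    (τ : ℝ) (hτ : 0 < τ) (hτ1 : τ ≤ 1) :
    ¬ ∃ᶠ k : ℕ in atTop, (k : ℝ) ^ (1 + τ) * ∏ i, nd (k * ω i) < 1 := by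
  classical
  intro hfr
  set g : ℝ := τ / (4 * (n + 1)) with hg
  have hg0 : 0 < g := by positivity
  have hng : (n : ℝ) * g ≤ τ / 4 := by
    rw [hg]
    have : (n : ℝ) * (τ / (4 * (n + 1))) = τ / 4 * (n / (n + 1)) := by field_simp
    rw [this]
    have h1 : (n : ℝ) / (n + 1) ≤ 1 := by
      rw [div_le_one (by positivity)]
      linarith
    nlinarith
  set L : ℕ := ⌈2 / g⌉₊ with hL
  have hLg : 2 ≤ L * g := by
    have := Nat.le_ceil (2 / g)
    rw [div_le_iff₀ hg0] at this
    exact this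
  -- the pattern
  let e : ℕ → Fin n → Fin (L + 1) := fun k i =>
    ⟨min ⌊(-Real.logb 2 (nd (k * ω i))) / (Nat.log 2 k * g)⌋₊ L, by
      have := min_le_right ⌊(-Real.logb 2 (nd (k * ω i))) / (Nat.log 2 k * g)⌋₊ L
      omega⟩
  have hpat : ∃ E : Fin n → Fin (L + 1),
      ∃ᶠ k : ℕ in atTop, (k : ℝ) ^ (1 + τ) * ∏ i, nd (k * ω i) < 1 ∧ e k = E := by
    by_contra hno
    push Not at hno
    apply hfr
    have h1 : ∀ E : Fin n → Fin (L + 1), ∀ᶠ k : ℕ in atTop,
        ¬((k : ℝ) ^ (1 + τ) * ∏ i, nd (k * ω i) < 1 ∧ e k = E) := by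
      intro E
      filter_upwards [hno E] with k hk hlt
      exact hk hlt.1 hlt.2
    have h2 := Filter.eventually_all.2 h1
    filter_upwards [h2] with k hk hlt
    exact hk (e k) ⟨hlt, rfl⟩
  obtain ⟨E, hE⟩ := hpat
  -- the predicate in terms of the exponent
  set Q : ℕ → Prop := fun k => (k : ℝ) ^ (1 + τ) * ∏ i, nd (k * ω i) < 1 ∧ e k = E ∧ 2 ≤ k with hQ
  have hQf : ∃ᶠ k : ℕ in atTop, Q k := by
    refine (hE.and_eventually (eventually_ge_atTop 2)).mono ?_
    rintro k ⟨⟨h1, h2⟩, h3⟩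
    exact ⟨h1, h2, h3⟩
  set P : ℕ → Prop := fun m => ∃ k, Q k ∧ Nat.log 2 k = m with hPd
  have hPf : ∃ᶠ m : ℕ in atTop, P m := by
    rw [Filter.frequently_atTop] at hQf ⊢
    intro a
    obtain ⟨k, hk, hQk⟩ := hQf (2 ^ a)
    refine ⟨Nat.log 2 k, ?_, k, hQk, rfl⟩
    exact Nat.le_log_of_pow_le (by norm_num) hk
  let kk : ℕ → ℕ := fun m => if h : P m then h.choose else 1
  have hkk : ∀ m, P m → Q (kk m) ∧ Nat.log 2 (kk m) = m := by
    intro m h
    have : kk m = h.choose := by simp only [kk]; rw [dif_pos h]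
    rw [this]
    exact h.choose_spec
  let x : ℕ → Fin (n + 1) → ℤ := fun m => Fin.cons (kk m : ℤ) (fun i => round ((kk m : ℝ) * ω i))
  have hbd : ∀ m, P m → (1 ≤ m ∧ (2 : ℝ) ^ m ≤ kk m ∧ (kk m : ℝ) < 2 * 2 ^ m ∧
      (∀ i, nd ((kk m : ℝ) * ω i) ≤ (2 : ℝ) ^ (-((E i : ℕ) : ℝ) * g * m)) ∧
      1 + τ / 2 ≤ ∑ i, ((E i : ℕ) : ℝ) * g) := by
    intro m hm
    obtain ⟨⟨h1, h2, h3⟩, h4⟩ := hkk m hm
    have hk0 : kk m ≠ 0 := by omega
    have hm1 : 1 ≤ m := by
      rw [← h4]
      exact Nat.log_pos (by norm_num) h3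
    have h5 : 2 ^ m ≤ kk m := by
      have h := Nat.pow_log_le_self 2 hk0
      rwa [h4] at h
    have h6 : kk m < 2 ^ (m + 1) := by
      have h := Nat.lt_pow_succ_log_self (b := 2) (by norm_num) (kk m)
      rwa [h4] at h
    have h5' : (2 : ℝ) ^ m ≤ kk m := by exact_mod_cast h5
    have h6' : (kk m : ℝ) < 2 * 2 ^ m := by
      have : (kk m : ℝ) < 2 ^ (m + 1) := by exact_mod_cast h6
      rw [pow_succ] at this
      linarith
    have hmR : (1 : ℝ) ≤ m := by exact_mod_cast hm1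
    have hmg : 0 < (m : ℝ) * g := by positivity
    have hpos : ∀ i, 0 < nd ((kk m : ℝ) * ω i) := fun i => nd_pos hli _ (by omega) i
    have hEi : ∀ i, ((E i : ℕ) : ℕ) = min ⌊(-Real.logb 2 (nd (kk m * ω i))) / (m * g)⌋₊ L := by
      intro i
      rw [← h2]
      simp only [e, h4]
    have hlog0 : ∀ i, 0 ≤ -Real.logb 2 (nd (kk m * ω i)) := by
      intro i
      have : Real.logb 2 (nd (kk m * ω i)) ≤ 0 :=
        Real.logb_nonpos (by norm_num) (nd_nonneg _) ((nd_le_half _).trans (by norm_num))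
      linarith
    refine ⟨hm1, h5', h6', ?_, ?_⟩
    · intro i
      have h7 : ((E i : ℕ) : ℝ) ≤ (-Real.logb 2 (nd (kk m * ω i))) / (m * g) := by
        have h8 : ((E i : ℕ) : ℕ) ≤ ⌊(-Real.logb 2 (nd (kk m * ω i))) / (m * g)⌋₊ := by
          rw [hEi]
          exact min_le_left _ _
        calc ((E i : ℕ) : ℝ) ≤ (⌊(-Real.logb 2 (nd (kk m * ω i))) / (m * g)⌋₊ : ℝ) := by
              exact_mod_cast h8
          _ ≤ _ := Nat.floor_le (div_nonneg (hlog0 i) hmg.le)
      rw [le_div_iff₀ hmg] at h7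
      have h9 : Real.logb 2 (nd (kk m * ω i)) ≤ -((E i : ℕ) : ℝ) * g * m := by nlinarith
      rwa [Real.logb_le_iff_le_rpow (by norm_num) (hpos i)] at h9
    · by_cases hcap : ∃ i, ((E i : ℕ) : ℕ) = L
      · obtain ⟨i, hi⟩ := hcap
        have h7 : ((E i : ℕ) : ℝ) * g ≤ ∑ i, ((E i : ℕ) : ℝ) * g :=
          Finset.single_le_sum (f := fun i => ((E i : ℕ) : ℝ) * g) (fun j _ => by positivity)
            (Finset.mem_univ i)
        rw [hi] at h7
        linarith
      · push Not at hcap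
        have h7 : ∀ i, -Real.logb 2 (nd (kk m * ω i)) ≤ (((E i : ℕ) : ℝ) + 1) * (m * g) := by
          intro i
          have h8 : ((E i : ℕ) : ℕ) = ⌊(-Real.logb 2 (nd (kk m * ω i))) / (m * g)⌋₊ := by
            have h9 := hEi i
            have h10 := hcap i
            rcases le_total ⌊(-Real.logb 2 (nd (kk m * ω i))) / (m * g)⌋₊ L with h11 | h11
            · rw [min_eq_left h11] at h9
              exact h9
            · rw [min_eq_right h11] at h9
              exact absurd h9 h10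
          have h9 := (Nat.lt_floor_add_one ((-Real.logb 2 (nd (kk m * ω i))) / (m * g))).le
          rw [← h8, div_le_iff₀ hmg] at h9
          exact h9
        have h8 : ∑ i, -Real.logb 2 (nd (kk m * ω i)) ≤
            (∑ i, ((E i : ℕ) : ℝ) * g) * m + (n : ℝ) * g * m := by
          refine (Finset.sum_le_sum fun i _ => h7 i).trans (le_of_eq ?_)
          have : ∀ i, (((E i : ℕ) : ℝ) + 1) * (m * g) = ((E i : ℕ) : ℝ) * g * m + g * m :=
            fun i => by ring
          simp_rw [this]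
          rw [Finset.sum_add_distrib, ← Finset.sum_mul, Finset.sum_const, Finset.card_univ,
            Fintype.card_fin, nsmul_eq_mul]
          ring
        have h9 : Real.logb 2 ((kk m : ℝ) ^ (1 + τ) * ∏ i, nd (kk m * ω i)) < 0 := by
          apply Real.logb_neg (by norm_num)
          · have : 0 < ∏ i, nd (kk m * ω i) := Finset.prod_pos fun i _ => hpos i
            have h10 : (0 : ℝ) < kk m := by exact_mod_cast (by omega : 0 < kk m)
            positivity
          · exact h1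
        have hk0R : (0 : ℝ) < kk m := by exact_mod_cast (by omega : 0 < kk m)
        rw [Real.logb_mul (by positivity) (Finset.prod_pos fun i _ => hpos i).ne',
          Real.logb_rpow_eq_mul_logb_of_pos hk0R,
          Real.logb_prod _ _ (fun i _ => (hpos i).ne')] at h9
        have h10 : (m : ℝ) ≤ Real.logb 2 (kk m) := by
          rw [Real.le_logb_iff_rpow_le (by norm_num) hk0R, Real.rpow_natCast]
          exact h5'
        rw [Finset.sum_neg_distrib] at h8
        have h11 : (1 + τ) * m < (∑ i, ((E i : ℕ) : ℝ) * g) * m + (n : ℝ) * g * m := by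
          have : (1 + τ) * m ≤ (1 + τ) * Real.logb 2 (kk m) :=
            mul_le_mul_of_nonneg_left h10 (by linarith)
          linarith
        have h12 : (1 + τ) < (∑ i, ((E i : ℕ) : ℝ) * g) + (n : ℝ) * g := by
          by_contra hcon
          push Not at hcon
          have := mul_le_mul_of_nonneg_right hcon (by linarith : (0 : ℝ) ≤ m)
          linarith
        linarith
  obtain ⟨m0, hm0⟩ := hPf.exists
  have hEsum : 1 + τ / 2 ≤ ∑ i, ((E i : ℕ) : ℝ) * g := (hbd m0 hm0).2.2.2.2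
  obtain ⟨y, hy, hfy⟩ := Pool.Agent.R333.SubR.sub_real (n := n + 1) (by omega) 2 le_rfl (Mt ω)
    (by
      intro i j
      refine Fin.cases ?_ (fun i' => ?_) i
      · simp only [Mt, Matrix.of_apply, Fin.cons_zero]
        split_ifs
        · exact isAlgebraic_one
        · exact isAlgebraic_zero
      · simp only [Mt, Matrix.of_apply, Fin.cons_succ]
        split_ifs
        · exact halg i'
        · exact isAlgebraic_one.neg
        · exact isAlgebraic_zero)
    (by
      intro i j hij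
      have hj0 : j ≠ 0 := by
        rintro rfl
        exact absurd hij (Fin.not_lt_zero i)
      refine Fin.cases (fun _ => ?_) (fun i' hij' => ?_) i hij
      · simp only [Mt, Matrix.of_apply, Fin.cons_zero]
        rw [if_neg hj0]
      · simp only [Mt, Matrix.of_apply, Fin.cons_succ]
        rw [if_neg hj0, if_neg hij'.ne'])
    (by
      intro i
      refine Fin.cases ?_ (fun i' => ?_) i
      · simp [Mt]
      · simp [Mt, Fin.succ_ne_zero])
    P hPf x (by
      intro m hm h0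
      have h1 := congrFun h0 0
      simp only [x, Fin.cons_zero, Pi.zero_apply] at h1
      have h2 := (hbd m hm).2.1
      have h3 : (kk m : ℝ) = 0 := by exact_mod_cast h1
      rw [h3] at h2
      have : (0 : ℝ) < 2 ^ m := by positivity
      linarith)
    (fun _ _ => 1) 0 (fun m l _ => one_dvd _) (fun m l _ => by simp)
    (Fin.cons 1 (fun i => -(((E i : ℕ) : ℝ) * g))) 2 (by norm_num)
    (by
      intro m l hm
      obtain ⟨h1, h2, h3, h4, -⟩ := hbd m hm
      refine Fin.cases ?_ (fun i => ?_) l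
      · rw [Mt_zero]
        simp only [x, Fin.cons_zero, one_mul]
        push_cast
        rw [abs_of_nonneg (Nat.cast_nonneg _), Real.rpow_natCast]
        exact h3.le
      · rw [Mt_succ]
        simp only [x, Fin.cons_zero, Fin.cons_succ]
        have h5 := h4 i
        unfold nd at h5
        push_cast
        rw [mul_comm (ω i)]
        refine h5.trans ?_
        have h6 : -((E i : ℕ) : ℝ) * g * m = -(((E i : ℕ) : ℝ) * g) * m := by ring
        rw [h6]
        have : (0 : ℝ) ≤ 2 ^ (-(((E i : ℕ) : ℝ) * g) * m) := by positivity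
        linarith)
    (τ / 4) (by positivity)
    (by
      intro m hm
      rw [Fin.sum_univ_succ]
      simp only [Fin.cons_zero, Fin.cons_succ, Nat.cast_one, Real.log_one, Finset.sum_const_zero]
      rw [Finset.sum_neg_distrib]
      have h1 : (1 + -∑ i, ((E i : ℕ) : ℝ) * g) + τ / 4 ≤ 0 := by linarith
      have h2 : 0 ≤ (m : ℝ) * Real.log 2 := by positivity
      have h3 := mul_nonpos_of_nonpos_of_nonneg h1 h2
      have e1 : ((1 + -∑ i, ((E i : ℕ) : ℝ) * g) + τ / 4) * m * Real.log ((2 : ℕ) : ℝ) =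
        ((1 + -∑ i, ((E i : ℕ) : ℝ) * g) + τ / 4) * (m * Real.log 2) := by push_cast; ring
      rw [e1]
      exact h3)
  -- the relation
  have hrel : (y 0 : ℝ) + ∑ i : Fin n, (y i.succ : ℝ) * ω i = 0 := by
    by_contra hne
    set v : ℝ := |(y 0 : ℝ) + ∑ i : Fin n, (y i.succ : ℝ) * ω i| with hv
    have hv0 : 0 < v := abs_pos.2 hne
    set Y : ℝ := ∑ i : Fin n, |(y i.succ : ℝ)| with hY
    have hev : ∀ᶠ m : ℕ in atTop, Y / v < (2 : ℝ) ^ m :=
      (tendsto_pow_atTop_atTop_of_one_lt (by norm_num : (1 : ℝ) < 2)).eventually_gt_atTop _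
    obtain ⟨m, ⟨hm, hs⟩, hlt⟩ := (hfy.and_eventually hev).exists
    obtain ⟨h1, h2, h3, h4, -⟩ := hbd m hm
    rw [Fin.sum_univ_succ] at hs
    simp only [x, Fin.cons_zero, Fin.cons_succ] at hs
    have hs' : (y 0 : ℝ) * kk m + ∑ i : Fin n, (y i.succ : ℝ) * (round ((kk m : ℝ) * ω i) : ℤ) = 0 := by
      exact_mod_cast hs
    have h5 : ((y 0 : ℝ) + ∑ i : Fin n, (y i.succ : ℝ) * ω i) * kk m =
        ∑ i : Fin n, (y i.succ : ℝ) * (kk m * ω i - (round ((kk m : ℝ) * ω i) : ℤ)) := by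
      simp_rw [mul_sub]
      rw [Finset.sum_sub_distrib, add_mul, Finset.sum_mul]
      have h6 : ∑ i : Fin n, (y i.succ : ℝ) * ω i * kk m = ∑ i : Fin n, (y i.succ : ℝ) * (kk m * ω i) :=
        Finset.sum_congr rfl fun i _ => by ring
      rw [h6]
      linarith
    have h7 : v * kk m ≤ Y := by
      have h8 : v * kk m = |((y 0 : ℝ) + ∑ i : Fin n, (y i.succ : ℝ) * ω i) * kk m| := by
        rw [abs_mul, abs_of_nonneg (Nat.cast_nonneg (kk m) : (0 : ℝ) ≤ (kk m : ℝ))]
      rw [h8, h5]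
      refine (Finset.abs_sum_le_sum_abs _ _).trans (Finset.sum_le_sum fun i _ => ?_)
      rw [abs_mul]
      have h9 := nd_le_half ((kk m : ℝ) * ω i)
      unfold nd at h9
      have h10 : 0 ≤ |(y i.succ : ℝ)| := abs_nonneg _
      nlinarith
    rw [div_lt_iff₀ hv0] at hlt
    nlinarith
  have hfin := hli (y 0) (fun i => y i.succ) hrel
  apply hy
  funext l
  refine Fin.cases hfin.1 (fun i => ?_) l
  exact congrFun hfin.2 i

/-- **Simultaneous approximation**: `k ^ (1 + τ) * ∏ i, ‖k ω_i‖` is bounded below -/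
theorem schmidt {n : ℕ} (ω : Fin n → ℝ) (halg : ∀ i, IsAlgebraic ℚ (ω i)) (hli : Ind ω)
    (τ : ℝ) (hτ : 0 < τ) :
    ∃ c : ℝ, 0 < c ∧ ∀ k : ℕ, 1 ≤ k → c ≤ (k : ℝ) ^ (1 + τ) * ∏ i, nd (k * ω i) := by
  have h1 := schmidt_aux ω halg hli (min τ 1) (lt_min hτ one_pos) (min_le_right _ _)
  rw [Filter.not_frequently, Filter.eventually_atTop] at h1
  obtain ⟨K, hK⟩ := h1
  have hprod : ∀ k : ℕ, 1 ≤ k → 0 < ∏ i, nd (k * ω i) := fun k hk =>
    Finset.prod_pos fun i _ => nd_pos hli k hk i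
  obtain ⟨c, hc, h⟩ := exists_low (fun k => (k : ℝ) ^ (1 + τ) * ∏ i, nd (k * ω i)) (by
    intro k hk
    have := hprod k hk
    have h2 : (0 : ℝ) < k := by exact_mod_cast (by omega : 0 < k)
    positivity) K
  refine ⟨min c 1, lt_min hc one_pos, fun k hk => ?_⟩
  rcases le_total k K with h2 | h2
  · exact (min_le_left _ _).trans (h k hk h2)
  · have h3 := hK k h2
    push Not at h3
    refine (min_le_right _ _).trans (h3.trans ?_)
    refine mul_le_mul_of_nonneg_right ?_ (hprod k hk).le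
    apply Real.rpow_le_rpow_of_exponent_le (by exact_mod_cast hk)
    have := min_le_left τ 1
    linarith

end Pool.Agent.NH20.NF
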