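import Mathlib
import Pool.Agent.NH20.NF.Sch

/-!
# Counting `l ≤ M` with `‖l ω_i‖ ≤ a_i`, and the sums of `∏ min (B, 1 / ‖l ω_i‖)`
-/

set_option autoImplicit false

open Finset Filter Topology

namespace Pool.Agent.NH20.NF

lemma spacing {α : Type*} (S : Finset α) (f : α → ℝ) (A B δ : ℝ) (hδ : 0 < δ)
    (hf : ∀ x ∈ S, A ≤ f x ∧ f x ≤ B) (hsep : ∀ x ∈ S, ∀ y ∈ S, x ≠ y → δ ≤ |f x - f y|)
    (hAB : A ≤ B) :
    (S.card : ℝ) ≤ (B - A) / δ + 1 := by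
  classical
  have hinj : Set.InjOn (fun x => ⌊(f x - A) / δ⌋₊) (S : Set α) := by
    intro x hx y hy hxy
    by_contra hne
    have h1 := hsep x hx y hy hne
    have hx1 : 0 ≤ (f x - A) / δ := div_nonneg (by linarith [(hf x hx).1]) hδ.le
    have hy1 : 0 ≤ (f y - A) / δ := div_nonneg (by linarith [(hf y hy).1]) hδ.le
    simp only at hxy
    have hx2 := Nat.floor_le hx1
    have hx3 := Nat.lt_floor_add_one ((f x - A) / δ)
    have hy2 := Nat.floor_le hy1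
    have hy3 := Nat.lt_floor_add_one ((f y - A) / δ)
    rw [← hxy] at hy2 hy3
    have h2 : |(f x - A) / δ - (f y - A) / δ| < 1 := by
      rw [abs_lt]
      constructor <;> linarith
    have h3 : (f x - A) / δ - (f y - A) / δ = (f x - f y) / δ := by ring
    rw [h3, abs_div, abs_of_pos hδ, div_lt_one hδ] at h2
    linarith
  have hmaps : ∀ x ∈ S, (fun x => ⌊(f x - A) / δ⌋₊) x ∈ Finset.range (⌊(B - A) / δ⌋₊ + 1) := by
    intro x hx
    rw [Finset.mem_range]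
    have : ⌊(f x - A) / δ⌋₊ ≤ ⌊(B - A) / δ⌋₊ := by
      apply Nat.floor_le_floor
      apply div_le_div_of_nonneg_right _ hδ.le
      linarith [(hf x hx).2]
    exact Nat.lt_succ_of_le this
  have h1 := Finset.card_le_card_of_injOn _ hmaps hinj
  rw [Finset.card_range] at h1
  have h2 : (S.card : ℝ) ≤ (⌊(B - A) / δ⌋₊ : ℝ) + 1 := by exact_mod_cast h1
  have h3 : (⌊(B - A) / δ⌋₊ : ℝ) ≤ (B - A) / δ :=
    Nat.floor_le (div_nonneg (by linarith) hδ.le)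
  linarith

lemma nd_sub_le (ξ : ℝ) (l l' : ℕ) (h : l' ≤ l) :
    nd ((l - l' : ℕ) * ξ) ≤ |(l * ξ - round (l * ξ)) - (l' * ξ - round (l' * ξ))| := by
  refine (nd_le _ (round (l * ξ) - round (l' * ξ))).trans (le_of_eq ?_)
  rw [Nat.cast_sub h]
  push_cast
  congr 1
  ring

/-- the number of `l ≤ M` with `‖l ω_i‖ ≤ a_i` for all `i` -/
theorem count {n : ℕ} (ω : Fin (n + 1) → ℝ) (τ c : ℝ) (hτ : 0 < τ) (hc : 0 < c)
    (hS : ∀ k : ℕ, 1 ≤ k → c ≤ (k : ℝ) ^ (1 + τ) * ∏ i, nd (k * ω i))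
    (M : ℕ) (hM : 1 ≤ M) (a : Fin (n + 1) → ℝ) (ha : ∀ i, 0 < a i) :
    (((Icc 1 M).filter (fun l : ℕ => ∀ i, nd (l * ω i) ≤ a i)).card : ℝ) ≤
      2 ^ (n + 2) / c * (M : ℝ) ^ (1 + τ) * ∏ i, a i := by
  classical
  set S := (Icc 1 M).filter (fun l : ℕ => ∀ i, nd (l * ω i) ≤ a i) with hSd
  have hM0 : (0 : ℝ) < M := by exact_mod_cast (by omega : 0 < M)
  have hMp : (0 : ℝ) < (M : ℝ) ^ (1 + τ) := Real.rpow_pos_of_pos hM0 _
  have hap : 0 < ∏ i, a i := Finset.prod_pos fun i _ => ha i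
  rcases S.eq_empty_or_nonempty with he | ⟨l0, hl0⟩
  · rw [he, Finset.card_empty, Nat.cast_zero]
    positivity
  have hmem : ∀ l ∈ S, 1 ≤ l ∧ l ≤ M ∧ ∀ i, nd (l * ω i) ≤ a i := by
    intro l hl
    rw [hSd, Finset.mem_filter, Finset.mem_Icc] at hl
    exact ⟨hl.1.1, hl.1.2, hl.2⟩
  have hone : c ≤ (M : ℝ) ^ (1 + τ) * ∏ i, a i := by
    obtain ⟨h1, h2, h3⟩ := hmem l0 hl0
    refine (hS l0 h1).trans ?_
    apply mul_le_mul
    · apply Real.rpow_le_rpow (Nat.cast_nonneg _) (by exact_mod_cast h2) (by linarith)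
    · exact Finset.prod_le_prod (fun i _ => nd_nonneg _) (fun i _ => h3 i)
    · exact Finset.prod_nonneg fun i _ => nd_nonneg _
    · exact hMp.le
  set A' : ℝ := ∏ i : Fin n, a i.succ with hA'
  have hA'0 : 0 < A' := Finset.prod_pos fun i _ => ha _
  have hprod : ∏ i, a i = a 0 * A' := by rw [Fin.prod_univ_succ]
  set δ : ℝ := c / ((M : ℝ) ^ (1 + τ) * (2 ^ n * A')) with hδ
  have hδ0 : 0 < δ := by positivity
  have hsp := spacing S (fun l : ℕ => (l : ℝ) * ω 0 - round ((l : ℝ) * ω 0)) (-(a 0)) (a 0) δ hδ0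
    (by
      intro l hl
      have h1 := (hmem l hl).2.2 0
      unfold nd at h1
      exact abs_le.1 h1)
    (by
      have key : ∀ l ∈ S, ∀ l' ∈ S, l' < l →
          δ ≤ |((l : ℝ) * ω 0 - round ((l : ℝ) * ω 0)) - ((l' : ℝ) * ω 0 - round ((l' : ℝ) * ω 0))| := by
        intro l hl l' hl' hlt
        obtain ⟨h1, h2, h3⟩ := hmem l hl
        obtain ⟨h1', h2', h3'⟩ := hmem l' hl'
        have h4 := hS (l - l') (by omega)
        rw [Fin.prod_univ_succ] at h4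
        have h5 : nd (((l - l' : ℕ) : ℝ) * ω 0) ≤ _ := nd_sub_le (ω 0) l l' hlt.le
        have h6 : ∏ i : Fin n, nd (((l - l' : ℕ) : ℝ) * ω i.succ) ≤ 2 ^ n * A' := by
          calc ∏ i : Fin n, nd (((l - l' : ℕ) : ℝ) * ω i.succ) ≤ ∏ i : Fin n, (2 * a i.succ) := by
                refine Finset.prod_le_prod (fun i _ => nd_nonneg _) fun i _ => ?_
                refine (nd_sub_le (ω i.succ) l l' hlt.le).trans ?_
                have h7 := h3 i.succ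
                have h8 := h3' i.succ
                unfold nd at h7 h8
                refine (abs_sub _ _).trans ?_
                linarith
            _ = 2 ^ n * A' := by
                rw [Finset.prod_mul_distrib, Finset.prod_const, Finset.card_univ, Fintype.card_fin]
        have h9 : ((l - l' : ℕ) : ℝ) ^ (1 + τ) ≤ (M : ℝ) ^ (1 + τ) := by
          apply Real.rpow_le_rpow (Nat.cast_nonneg _) _ (by linarith)
          exact_mod_cast (by omega : l - l' ≤ M)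
        rw [hδ, div_le_iff₀ (by positivity)]
        set z := |((l : ℝ) * ω 0 - round ((l : ℝ) * ω 0)) - ((l' : ℝ) * ω 0 - round ((l' : ℝ) * ω 0))|
        have hz : 0 ≤ z := abs_nonneg _
        calc c ≤ ((l - l' : ℕ) : ℝ) ^ (1 + τ) *
              (nd (((l - l' : ℕ) : ℝ) * ω 0) * ∏ i : Fin n, nd (((l - l' : ℕ) : ℝ) * ω i.succ)) := h4
          _ ≤ (M : ℝ) ^ (1 + τ) * (z * (2 ^ n * A')) := by
              apply mul_le_mul h9 _ _ hMp.le
              · exact mul_le_mul h5 h6 (Finset.prod_nonneg fun i _ => nd_nonneg _) hz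
              · exact mul_nonneg (nd_nonneg _) (Finset.prod_nonneg fun i _ => nd_nonneg _)
          _ = z * ((M : ℝ) ^ (1 + τ) * (2 ^ n * A')) := by ring
      intro l hl l' hl' hne
      rcases lt_or_gt_of_ne hne with h | h
      · have := key l' hl' l hl h
        rw [abs_sub_comm] at this
        exact this
      · exact key l hl l' hl' h)
    (by linarith [ha 0])
  have h1 : (a 0 - -(a 0)) / δ = 2 ^ (n + 1) / c * (M : ℝ) ^ (1 + τ) * ∏ i, a i := by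
    rw [hδ, hprod]
    field_simp
    ring
  rw [h1] at hsp
  have h2 : 1 ≤ 1 / c * ((M : ℝ) ^ (1 + τ) * ∏ i, a i) := by
    rw [one_div, ← div_eq_inv_mul, le_div_iff₀ hc, one_mul]
    exact hone
  have h3 : (1 : ℝ) ≤ 2 ^ (n + 1) := one_le_pow₀ (by norm_num)
  have h4 : 0 ≤ 1 / c * ((M : ℝ) ^ (1 + τ) * ∏ i, a i) := by positivity
  calc (S.card : ℝ) ≤ 2 ^ (n + 1) / c * (M : ℝ) ^ (1 + τ) * ∏ i, a i + 1 := hsp
    _ = 2 ^ (n + 1) * (1 / c * ((M : ℝ) ^ (1 + τ) * ∏ i, a i)) + 1 := by ring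
    _ ≤ 2 ^ (n + 1) * (1 / c * ((M : ℝ) ^ (1 + τ) * ∏ i, a i)) +
        2 ^ (n + 1) * (1 / c * ((M : ℝ) ^ (1 + τ) * ∏ i, a i)) := by nlinarith
    _ = 2 ^ (n + 2) / c * (M : ℝ) ^ (1 + τ) * ∏ i, a i := by ring

/-- `min (B, 1 / ‖x‖)` -/
noncomputable def gm (B x : ℝ) : ℝ := min B (1 / nd x)

lemma gm_nonneg {B : ℝ} (hB : 0 ≤ B) (x : ℝ) : 0 ≤ gm B x :=
  le_min hB (div_nonneg zero_le_one (nd_nonneg _))

lemma exists_level (B : ℝ) (J : ℕ) (hBJ : B ≤ 2 ^ J) (x : ℝ) (hx : 0 < nd x) :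
    ∃ j : Fin (J + 1), nd x ≤ ((2 : ℝ) ^ (j : ℕ))⁻¹ ∧ gm B x ≤ 2 ^ ((j : ℕ) + 1) := by
  classical
  have hP0 : (2 : ℝ) ^ 0 * nd x ≤ 1 := by
    have := nd_le_half x
    rw [pow_zero]
    linarith
  set j := Nat.findGreatest (fun j => (2 : ℝ) ^ j * nd x ≤ 1) J with hj
  have h1 : (2 : ℝ) ^ j * nd x ≤ 1 :=
    Nat.findGreatest_spec (P := fun j => (2 : ℝ) ^ j * nd x ≤ 1) (Nat.zero_le J) hP0
  have h2 : j ≤ J := Nat.findGreatest_le J
  refine ⟨⟨j, by omega⟩, ?_, ?_⟩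
  · rw [← one_div, le_div_iff₀ (by positivity), mul_comm]
    exact h1
  · rcases Nat.lt_or_ge j J with h3 | h3
    · have h4 : ¬ ((2 : ℝ) ^ (j + 1) * nd x ≤ 1) :=
        Nat.findGreatest_is_greatest (P := fun j => (2 : ℝ) ^ j * nd x ≤ 1) (n := J)
          (Nat.lt_succ_self _) h3
      push Not at h4
      refine (min_le_right _ _).trans ?_
      rw [div_le_iff₀ hx]
      exact h4.le
    · have h4 : j = J := le_antisymm h2 h3
      refine (min_le_left _ _).trans (hBJ.trans ?_)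
      exact pow_le_pow_right₀ (by norm_num) (by simp only; omega)

/-- the sums of `∏ min (B, 1 / ‖l ω_i‖)` -/
theorem sum_gm {n : ℕ} (ω : Fin (n + 1) → ℝ) (hli : Ind ω) (τ c : ℝ) (hτ : 0 < τ) (hc : 0 < c)
    (hS : ∀ k : ℕ, 1 ≤ k → c ≤ (k : ℝ) ^ (1 + τ) * ∏ i, nd (k * ω i))
    (M : ℕ) (hM : 1 ≤ M) (B : ℝ) (hB : 0 ≤ B) (J : ℕ) (hBJ : B ≤ 2 ^ J) :
    ∑ l ∈ Icc 1 M, ∏ i, gm B ((l : ℕ) * ω i) ≤
      ((J : ℝ) + 1) ^ (n + 1) * (2 ^ (n + 1) * (2 ^ (n + 2) / c)) * (M : ℝ) ^ (1 + τ) := by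
  classical
  have hM0 : (0 : ℝ) < M := by exact_mod_cast (by omega : 0 < M)
  have h1 : ∀ l ∈ Icc 1 M, ∏ i, gm B ((l : ℕ) * ω i) ≤ ∑ E : Fin (n + 1) → Fin (J + 1),
      if (∀ i, nd (l * ω i) ≤ ((2 : ℝ) ^ (E i : ℕ))⁻¹) then ∏ i, (2 : ℝ) ^ ((E i : ℕ) + 1) else 0 := by
    intro l hl
    rw [Finset.mem_Icc] at hl
    choose E hE using fun i => exists_level B J hBJ ((l : ℕ) * ω i) (nd_pos hli l hl.1 i)
    refine le_trans ?_ (Finset.single_le_sum (f := fun E : Fin (n + 1) → Fin (J + 1) =>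
      if (∀ i, nd (l * ω i) ≤ ((2 : ℝ) ^ (E i : ℕ))⁻¹) then ∏ i, (2 : ℝ) ^ ((E i : ℕ) + 1) else 0)
      (fun E _ => ?_) (Finset.mem_univ E))
    · rw [if_pos (fun i => (hE i).1)]
      exact Finset.prod_le_prod (fun i _ => gm_nonneg hB _) (fun i _ => (hE i).2)
    · split_ifs
      · positivity
      · exact le_rfl
  refine (Finset.sum_le_sum h1).trans ?_
  rw [Finset.sum_comm]
  have h2 : ∀ E : Fin (n + 1) → Fin (J + 1), ∑ l ∈ Icc 1 M,
      (if (∀ i, nd ((l : ℕ) * ω i) ≤ ((2 : ℝ) ^ (E i : ℕ))⁻¹) then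
        ∏ i, (2 : ℝ) ^ ((E i : ℕ) + 1) else 0) ≤
      (2 ^ (n + 1) * (2 ^ (n + 2) / c)) * (M : ℝ) ^ (1 + τ) := by
    intro E
    rw [← Finset.sum_filter, Finset.sum_const, nsmul_eq_mul]
    have h3 := count ω τ c hτ hc hS M hM (fun i => ((2 : ℝ) ^ (E i : ℕ))⁻¹) (fun i => by positivity)
    have h4 : (∏ i, ((2 : ℝ) ^ (E i : ℕ))⁻¹) * ∏ i, (2 : ℝ) ^ ((E i : ℕ) + 1) = 2 ^ (n + 1) := by
      rw [← Finset.prod_mul_distrib]
      have : ∀ i, ((2 : ℝ) ^ (E i : ℕ))⁻¹ * (2 : ℝ) ^ ((E i : ℕ) + 1) = 2 := by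
        intro i
        rw [pow_succ, ← mul_assoc, inv_mul_cancel₀ (by positivity), one_mul]
      simp_rw [this]
      rw [Finset.prod_const, Finset.card_univ, Fintype.card_fin]
    calc _ ≤ (2 ^ (n + 2) / c * (M : ℝ) ^ (1 + τ) * ∏ i, ((2 : ℝ) ^ (E i : ℕ))⁻¹) *
          ∏ i, (2 : ℝ) ^ ((E i : ℕ) + 1) := by
          apply mul_le_mul_of_nonneg_right h3 (by positivity)
      _ = 2 ^ (n + 2) / c * (M : ℝ) ^ (1 + τ) * ((∏ i, ((2 : ℝ) ^ (E i : ℕ))⁻¹) *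
          ∏ i, (2 : ℝ) ^ ((E i : ℕ) + 1)) := by ring
      _ = _ := by rw [h4]; ring
  refine (Finset.sum_le_sum fun E _ => h2 E).trans (le_of_eq ?_)
  rw [Finset.sum_const, Finset.card_univ, Fintype.card_fun, Fintype.card_fin, Fintype.card_fin,
    nsmul_eq_mul]
  push_cast
  ring

end Pool.Agent.NH20.NF
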