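import Mathlib

/-!
# Bounds by powers
-/

set_option autoImplicit false

open Finset Filter Topology

namespace Pool.Agent.NH20.NF

/-- `f H ≤ C H ^ e` for large `H` -/
def PB (f : ℕ → ℝ) (e : ℝ) : Prop := ∃ C : ℝ, 0 < C ∧ ∀ᶠ H : ℕ in atTop, f H ≤ C * (H : ℝ) ^ e

lemma PB.mono {f g : ℕ → ℝ} {e : ℝ} (h : PB g e) (hfg : ∀ᶠ H : ℕ in atTop, f H ≤ g H) : PB f e := by
  obtain ⟨C, hC, h⟩ := h
  refine ⟨C, hC, ?_⟩
  filter_upwards [h, hfg] with H h1 h2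
  exact h2.trans h1

lemma PB.mono_exp {f : ℕ → ℝ} {e e' : ℝ} (h : PB f e) (he : e ≤ e') : PB f e' := by
  obtain ⟨C, hC, h⟩ := h
  refine ⟨C, hC, ?_⟩
  filter_upwards [h, eventually_ge_atTop 1] with H h1 h2
  refine h1.trans (mul_le_mul_of_nonneg_left ?_ hC.le)
  exact Real.rpow_le_rpow_of_exponent_le (by exact_mod_cast h2) he

lemma PB.add {f g : ℕ → ℝ} {e : ℝ} (hf : PB f e) (hg : PB g e) : PB (fun H => f H + g H) e := by
  obtain ⟨C, hC, hf⟩ := hf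
  obtain ⟨D, hD, hg⟩ := hg
  refine ⟨C + D, by positivity, ?_⟩
  filter_upwards [hf, hg] with H h1 h2
  rw [add_mul]
  exact add_le_add h1 h2

lemma PB.mul {f g : ℕ → ℝ} {a b : ℝ} (hf : PB f a) (hg : PB g b) (hg0 : ∀ H, 0 ≤ g H) :
    PB (fun H => f H * g H) (a + b) := by
  obtain ⟨C, hC, hf⟩ := hf
  obtain ⟨D, hD, hg⟩ := hg
  refine ⟨C * D, by positivity, ?_⟩
  filter_upwards [hf, hg, eventually_ge_atTop 1] with H h1 h2 h3
  have hH : (0 : ℝ) < H := by exact_mod_cast (by omega : 0 < H)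
  rw [Real.rpow_add hH]
  have h4 : (0 : ℝ) ≤ C * (H : ℝ) ^ a := by positivity
  calc f H * g H ≤ (C * (H : ℝ) ^ a) * (D * (H : ℝ) ^ b) := mul_le_mul h1 h2 (hg0 H) h4
    _ = _ := by ring

lemma PB.const (c : ℝ) : PB (fun _ => c) 0 := by
  refine ⟨|c| + 1, by positivity, ?_⟩
  filter_upwards with H
  rw [Real.rpow_zero, mul_one]
  linarith [le_abs_self c]

lemma PB.const_mul {f : ℕ → ℝ} {e : ℝ} (hf : PB f e) (hf0 : ∀ H, 0 ≤ f H) (c : ℝ) :
    PB (fun H => c * f H) e := by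
  have := (PB.const c).mul hf hf0
  rwa [zero_add] at this

lemma PB.id : PB (fun H => (H : ℝ)) 1 := by
  refine ⟨1, one_pos, ?_⟩
  filter_upwards with H
  rw [Real.rpow_one, one_mul]

lemma PB.self (e : ℝ) : PB (fun H => (H : ℝ) ^ e) e := by
  refine ⟨1, one_pos, ?_⟩
  filter_upwards with H
  rw [one_mul]

lemma PB.rpow {f : ℕ → ℝ} {e : ℝ} (hf : PB f e) (hf0 : ∀ H, 0 ≤ f H) (t : ℝ) (ht : 0 ≤ t) :
    PB (fun H => (f H) ^ t) (t * e) := by
  obtain ⟨C, hC, hf⟩ := hf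
  refine ⟨C ^ t, by positivity, ?_⟩
  filter_upwards [hf] with H h1
  refine (Real.rpow_le_rpow (hf0 H) h1 ht).trans (le_of_eq ?_)
  rw [Real.mul_rpow hC.le (by positivity), ← Real.rpow_mul (by positivity), mul_comm e t]

lemma PB.pow {f : ℕ → ℝ} {e : ℝ} (hf : PB f e) (hf0 : ∀ H, 0 ≤ f H) (k : ℕ) :
    PB (fun H => (f H) ^ k) (k * e) := by
  have := hf.rpow hf0 (k : ℝ) (Nat.cast_nonneg _)
  simp_rw [Real.rpow_natCast] at this
  exact this

lemma log_bound (s : ℝ) (hs : 0 < s) : ∃ C : ℝ, 0 < C ∧ ∀ x : ℕ,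
    (Nat.log 2 x : ℝ) + 2 ≤ C * ((x : ℝ) + 1) ^ s := by
  have hl2 : 0 < Real.log 2 := Real.log_pos (by norm_num)
  refine ⟨1 / (s * Real.log 2) + 2, by positivity, fun x => ?_⟩
  have hx1 : (1 : ℝ) ≤ (x : ℝ) + 1 := by
    have : (0 : ℝ) ≤ x := Nat.cast_nonneg x
    linarith
  have h1 : (1 : ℝ) ≤ ((x : ℝ) + 1) ^ s := Real.one_le_rpow hx1 hs.le
  have h2 : (Nat.log 2 x : ℝ) ≤ 1 / (s * Real.log 2) * ((x : ℝ) + 1) ^ s := by
    rcases Nat.eq_zero_or_pos x with h | h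
    · rw [h, Nat.log_zero_right, Nat.cast_zero]
      positivity
    · have h3 : 2 ^ Nat.log 2 x ≤ x := Nat.pow_log_le_self 2 (by omega)
      have h4 : (2 : ℝ) ^ Nat.log 2 x ≤ (x : ℝ) + 1 := by
        have : (2 : ℝ) ^ Nat.log 2 x ≤ x := by exact_mod_cast h3
        linarith
      have h5 := Real.log_le_log (by positivity) h4
      rw [Real.log_pow] at h5
      have h6 := Real.log_le_rpow_div (by linarith : (0 : ℝ) ≤ (x : ℝ) + 1) hs
      have h7 : (Nat.log 2 x : ℝ) * Real.log 2 ≤ ((x : ℝ) + 1) ^ s / s := h5.trans h6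
      have h8 : 1 / (s * Real.log 2) * ((x : ℝ) + 1) ^ s = ((x : ℝ) + 1) ^ s / s / Real.log 2 := by
        field_simp
      rw [h8, le_div_iff₀ hl2]
      exact h7
  rw [add_mul]
  have h3 : (2 : ℝ) ≤ 2 * ((x : ℝ) + 1) ^ s := by linarith
  linarith

/-- logarithms of functions of polynomial growth -/
lemma PB.log {Z : ℕ → ℕ} {e : ℝ} (hZ : PB (fun H => (Z H : ℝ)) e) (he : 0 ≤ e) (s : ℝ) (hs : 0 < s) :
    PB (fun H => (Nat.log 2 (Z H) : ℝ) + 2) s := by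
  obtain ⟨C, hC, h⟩ := log_bound (s / (e + 1)) (by positivity)
  have h1 : PB (fun H => (Z H : ℝ) + 1) e :=
    hZ.add ((PB.const 1).mono_exp he)
  have h2 := (h1.rpow (fun H => by positivity) (s / (e + 1)) (by positivity)).const_mul
    (fun H => by positivity) C
  refine (h2.mono (Filter.Eventually.of_forall fun H => h (Z H))).mono_exp ?_
  rw [div_mul_eq_mul_div, div_le_iff₀ (by positivity)]
  nlinarith

/-- a smaller power is small -/
lemma PB.eventually_le {f : ℕ → ℝ} {e e' : ℝ} (hf : PB f e) (he : e < e') (η : ℝ) (hη : 0 < η) :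
    ∀ᶠ H : ℕ in atTop, f H ≤ η * (H : ℝ) ^ e' := by
  obtain ⟨C, hC, h⟩ := hf
  have h1 : Tendsto (fun H : ℕ => (H : ℝ) ^ (e' - e)) atTop atTop :=
    (tendsto_rpow_atTop (by linarith)).comp tendsto_natCast_atTop_atTop
  filter_upwards [h, h1.eventually_ge_atTop (C / η), eventually_ge_atTop 1] with H h2 h3 h4
  have hH : (0 : ℝ) < H := by exact_mod_cast (by omega : 0 < H)
  have h5 : (H : ℝ) ^ e' = (H : ℝ) ^ (e' - e) * (H : ℝ) ^ e := by
    rw [← Real.rpow_add hH]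
    congr 1
    ring
  rw [h5]
  rw [div_le_iff₀ hη] at h3
  have h6 : (0 : ℝ) ≤ (H : ℝ) ^ e := by positivity
  calc f H ≤ C * (H : ℝ) ^ e := h2
    _ ≤ ((H : ℝ) ^ (e' - e) * η) * (H : ℝ) ^ e := mul_le_mul_of_nonneg_right h3 h6
    _ = _ := by ring

end Pool.Agent.NH20.NF
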