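import Mathlib
import Pool.Agent.NH20.NF.Cnt

/-!
# Fejer's bound for the number of `a` with `‖t_a‖ ≤ 1 / (8 K)`
-/

set_option autoImplicit false

open Finset Filter Topology

namespace Pool.Agent.NH20.NF

/-- `e (x) = exp (2 π i x)` -/
noncomputable def ee (x : ℝ) : ℂ := Complex.exp (((2 * Real.pi * x : ℝ) : ℂ) * Complex.I)

lemma ee_add (x y : ℝ) : ee (x + y) = ee x * ee y := by
  unfold ee
  rw [← Complex.exp_add]
  congr 1
  push_cast
  ring

lemma ee_zero : ee 0 = 1 := by
  unfold ee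
  simp

lemma norm_ee (x : ℝ) : ‖ee x‖ = 1 := by
  unfold ee
  exact Complex.norm_exp_ofReal_mul_I _

lemma ee_int (k : ℤ) : ee (k : ℝ) = 1 := by
  unfold ee
  rw [Complex.exp_eq_one_iff]
  exact ⟨k, by push_cast; ring⟩

lemma conj_ee (x : ℝ) : (starRingEnd ℂ) (ee x) = ee (-x) := by
  unfold ee
  rw [← Complex.exp_conj]
  congr 1
  rw [map_mul, Complex.conj_I, Complex.conj_ofReal]
  push_cast
  ring

lemma ee_natmul (n : ℕ) (t : ℝ) : ee (n * t) = ee t ^ n := by
  induction n with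
  | zero => simp [ee_zero]
  | succ n ih =>
    rw [pow_succ, ← ih, ← ee_add]
    congr 1
    push_cast
    ring

lemma ee_sum {α : Type*} (s : Finset α) (f : α → ℝ) : ee (∑ i ∈ s, f i) = ∏ i ∈ s, ee (f i) := by
  classical
  induction s using Finset.induction_on with
  | empty => simp [ee_zero]
  | insert a s ha ih => rw [Finset.sum_insert ha, Finset.prod_insert ha, ee_add, ih]

lemma norm_ee_sub_one (t : ℝ) : 4 * nd t ≤ ‖ee t - 1‖ := by
  have h1 : ee t = Complex.exp (Complex.I * ((2 * Real.pi * t : ℝ) : ℂ)) := by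
    unfold ee; rw [mul_comm]
  have h2 : ‖ee t - 1‖ = 2 * |Real.sin (Real.pi * t)| := by
    rw [h1, Complex.norm_exp_I_mul_ofReal_sub_one]
    rw [show 2 * Real.pi * t / 2 = Real.pi * t by ring]
    rw [norm_mul, Real.norm_eq_abs, Real.norm_eq_abs, abs_of_pos (by norm_num : (0 : ℝ) < 2)]
  rw [h2]
  set u : ℝ := t - round t with hu
  have hu1 : |u| ≤ 1 / 2 := abs_sub_round t
  have hnd : nd t = |u| := rfl
  have h3 : |Real.sin (Real.pi * t)| = |Real.sin (Real.pi * u)| := by
    have : Real.pi * t = Real.pi * u + (round t : ℤ) * Real.pi := by rw [hu]; ring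
    rw [this]
    rw [Real.sin_add_int_mul_pi, abs_mul]
    rw [abs_zpow, abs_neg, abs_one, one_zpow, one_mul]
  rw [h3, hnd]
  have hpi := Real.pi_pos
  have h4 : |Real.sin (Real.pi * u)| = Real.sin (Real.pi * |u|) := by
    rcases le_total 0 u with hu0 | hu0
    · rw [abs_of_nonneg hu0, abs_of_nonneg]
      apply Real.sin_nonneg_of_nonneg_of_le_pi (by positivity)
      rw [abs_of_nonneg hu0] at hu1
      nlinarith
    · rw [abs_of_nonpos hu0]
      rw [show Real.pi * -u = -(Real.pi * u) by ring, Real.sin_neg]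
      rw [abs_of_nonpos]
      apply Real.sin_nonpos_of_nonpos_of_neg_pi_le
      · nlinarith
      · rw [abs_of_nonpos hu0] at hu1
        nlinarith
  rw [h4]
  have h5 : 2 / Real.pi * (Real.pi * |u|) ≤ Real.sin (Real.pi * |u|) :=
    Real.mul_le_sin (by positivity) (by nlinarith)
  have h6 : 2 / Real.pi * (Real.pi * |u|) = 2 * |u| := by field_simp
  rw [h6] at h5
  linarith

lemma Icc_image (H : ℕ) : Icc (-(H : ℤ)) H = (range (2 * H + 1)).image (fun j : ℕ => (j : ℤ) - H) := by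
  ext x
  rw [Finset.mem_Icc, Finset.mem_image]
  constructor
  · rintro ⟨h1, h2⟩
    refine ⟨(x + H).toNat, ?_, ?_⟩
    · rw [Finset.mem_range]; omega
    · omega
  · rintro ⟨j, hj, rfl⟩
    rw [Finset.mem_range] at hj
    omega

lemma sum_Icc_eq (H : ℕ) (f : ℤ → ℂ) :
    ∑ x ∈ Icc (-(H : ℤ)) H, f x = ∑ j ∈ range (2 * H + 1), f ((j : ℤ) - H) := by
  rw [Icc_image, Finset.sum_image]
  intro a _ b _ h
  simp only at h
  omega

lemma card_box (H : ℕ) : (Icc (-(H : ℤ)) H).card = 2 * H + 1 := by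
  rw [Int.card_Icc]
  omega

/-- a geometric sum -/
lemma geo (s : ℝ) (hs : 0 < nd s) (H : ℕ) :
    ‖∑ x ∈ Icc (-(H : ℤ)) H, ee (s * x)‖ ≤ gm (2 * H + 1) s := by
  unfold gm
  apply le_min
  · refine (norm_sum_le _ _).trans ?_
    simp_rw [norm_ee]
    rw [Finset.sum_const, card_box, nsmul_eq_mul, mul_one]
    push_cast
    exact le_rfl
  · rw [sum_Icc_eq]
    have h1 : ∀ j : ℕ, ee (s * (((j : ℤ) - H : ℤ) : ℝ)) = ee (s * (-(H : ℝ))) * ee s ^ j := by
      intro j
      rw [← ee_natmul, ← ee_add]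
      congr 1
      push_cast
      ring
    simp_rw [h1]
    rw [← mul_sum, norm_mul, norm_ee, one_mul]
    have h2 := norm_ee_sub_one s
    have h3 : ee s ≠ 1 := by
      intro h4
      rw [h4, sub_self, norm_zero] at h2
      linarith
    rw [geom_sum_eq h3, norm_div]
    have h4 : ‖ee s ^ (2 * H + 1) - 1‖ ≤ 2 := by
      refine (norm_sub_le _ _).trans ?_
      rw [norm_pow, norm_ee, one_pow, norm_one]
      norm_num
    have h5 : 0 < ‖ee s - 1‖ := by linarith
    calc ‖ee s ^ (2 * H + 1) - 1‖ / ‖ee s - 1‖ ≤ 2 / ‖ee s - 1‖ := by gcongr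
      _ ≤ 2 / (4 * nd s) := div_le_div_of_nonneg_left (by norm_num) (by linarith) h2
      _ ≤ 1 / nd s := by
        rw [div_le_div_iff₀ (by linarith) hs]
        linarith

lemma fejer_low (t : ℝ) (K : ℕ) (hK : 1 ≤ K) (ht : nd t ≤ 1 / (8 * K)) :
    (K : ℝ) / 2 ≤ ‖∑ j ∈ range K, ee (j * t)‖ := by
  have hK0 : (0 : ℝ) < K := by exact_mod_cast (by omega : 0 < K)
  set u : ℝ := t - round t with hu
  have hu1 : |u| ≤ 1 / (8 * K) := ht
  have h1 : ∀ j : ℕ, ee (j * t) = ee (j * u) := by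
    intro j
    have : (j : ℝ) * t = j * u + ((j * round t : ℤ) : ℝ) := by
      rw [hu]
      push_cast
      ring
    rw [this, ee_add, ee_int, mul_one]
  have h2 : ∀ j ∈ range K, (1 : ℝ) / 2 ≤ (ee (j * t)).re := by
    intro j hj
    rw [Finset.mem_range] at hj
    rw [h1]
    unfold ee
    rw [Complex.exp_ofReal_mul_I_re]
    have h3 := Real.one_sub_sq_div_two_le_cos (x := 2 * Real.pi * (j * u))
    have h4 : |2 * Real.pi * (j * u)| ≤ 1 := by
      have hpi := Real.pi_pos
      have hpi4 : Real.pi < 4 := Real.pi_lt_four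
      rw [abs_mul, abs_of_pos (by positivity : (0 : ℝ) < 2 * Real.pi), abs_mul,
        abs_of_nonneg (Nat.cast_nonneg j : (0 : ℝ) ≤ (j : ℝ))]
      have h5 : (j : ℝ) ≤ K := by exact_mod_cast hj.le
      have h6 : (j : ℝ) * |u| ≤ K * (1 / (8 * K)) :=
        mul_le_mul h5 hu1 (abs_nonneg _) hK0.le
      have h7 : (K : ℝ) * (1 / (8 * K)) = 1 / 8 := by field_simp
      rw [h7] at h6
      have h8 : 0 ≤ (j : ℝ) * |u| := by positivity
      nlinarith
    have h5 : (2 * Real.pi * (j * u)) ^ 2 ≤ 1 := by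
      rw [← sq_abs]
      exact pow_le_one₀ (abs_nonneg _) h4
    linarith
  have h3 : ∑ j ∈ range K, (1 : ℝ) / 2 ≤ (∑ j ∈ range K, ee (j * t)).re := by
    rw [Complex.re_sum]
    exact Finset.sum_le_sum h2
  rw [Finset.sum_const, Finset.card_range, nsmul_eq_mul] at h3
  calc (K : ℝ) / 2 = K * (1 / 2) := by ring
    _ ≤ _ := h3
    _ ≤ _ := Complex.re_le_norm _

theorem fejer {α : Type*} (A : Finset α) (t : α → ℝ) (K : ℕ) (hK : 1 ≤ K) (V : ℕ → ℝ)
    (hV : ∀ k, 1 ≤ k → k < K → ‖∑ a ∈ A, ee (k * t a)‖ ≤ V k) :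
    ((A.filter (fun a => nd (t a) ≤ 1 / (8 * K))).card : ℝ) ≤
      4 / K * (A.card + 2 * ∑ k ∈ Ico 1 K, V k) := by
  classical
  have hK0 : (0 : ℝ) < K := by exact_mod_cast (by omega : 0 < K)
  have hV0 : ∀ k ∈ Ico 1 K, 0 ≤ V k := by
    intro k hk
    rw [Finset.mem_Ico] at hk
    exact (norm_nonneg _).trans (hV k hk.1 hk.2)
  -- lower bound
  have h1 : ((A.filter (fun a => nd (t a) ≤ 1 / (8 * K))).card : ℝ) * (K ^ 2 / 4) ≤
      ∑ a ∈ A, ‖∑ j ∈ range K, ee (j * t a)‖ ^ 2 := by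
    rw [← nsmul_eq_mul, ← Finset.sum_const]
    calc ∑ _a ∈ A.filter (fun a => nd (t a) ≤ 1 / (8 * K)), (K : ℝ) ^ 2 / 4 ≤
        ∑ a ∈ A.filter (fun a => nd (t a) ≤ 1 / (8 * K)), ‖∑ j ∈ range K, ee (j * t a)‖ ^ 2 := by
          refine Finset.sum_le_sum fun a ha => ?_
          rw [Finset.mem_filter] at ha
          have := fejer_low (t a) K hK ha.2
          calc (K : ℝ) ^ 2 / 4 = (K / 2) ^ 2 := by ring
            _ ≤ _ := pow_le_pow_left₀ (by positivity) this 2
      _ ≤ _ := Finset.sum_le_sum_of_subset_of_nonneg (Finset.filter_subset _ _)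
          fun a _ _ => by positivity
  -- upper bound
  have h2 : ∑ a ∈ A, ‖∑ j ∈ range K, ee (j * t a)‖ ^ 2 ≤
      ∑ j ∈ range K, ∑ j' ∈ range K, ‖∑ a ∈ A, ee (((j : ℝ) - j') * t a)‖ := by
    have h3 : ((∑ a ∈ A, ‖∑ j ∈ range K, ee (j * t a)‖ ^ 2 : ℝ) : ℂ) =
        ∑ j ∈ range K, ∑ j' ∈ range K, ∑ a ∈ A, ee (((j : ℝ) - j') * t a) := by
      push_cast
      have h4 : ∀ a ∈ A, ((‖∑ j ∈ range K, ee (j * t a)‖ : ℂ)) ^ 2 =
          ∑ j ∈ range K, ∑ j' ∈ range K, ee (((j : ℝ) - j') * t a) := by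
        intro a _
        rw [← Complex.mul_conj', map_sum, Finset.sum_mul_sum]
        refine Finset.sum_congr rfl fun j _ => Finset.sum_congr rfl fun j' _ => ?_
        rw [conj_ee, ← ee_add]
        congr 1
        ring
      rw [Finset.sum_congr rfl h4, Finset.sum_comm]
      refine Finset.sum_congr rfl fun j _ => ?_
      rw [Finset.sum_comm]
    have h5 : 0 ≤ ∑ a ∈ A, ‖∑ j ∈ range K, ee (j * t a)‖ ^ 2 :=
      Finset.sum_nonneg fun a _ => by positivity
    calc ∑ a ∈ A, ‖∑ j ∈ range K, ee (j * t a)‖ ^ 2 =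
        ‖((∑ a ∈ A, ‖∑ j ∈ range K, ee (j * t a)‖ ^ 2 : ℝ) : ℂ)‖ := by
          rw [Complex.norm_real, Real.norm_eq_abs, abs_of_nonneg h5]
      _ ≤ _ := by
          rw [h3]
          exact (norm_sum_le _ _).trans (Finset.sum_le_sum fun j _ => norm_sum_le _ _)
  have h3 : ∀ j ∈ range K, ∀ j' ∈ range K, ‖∑ a ∈ A, ee (((j : ℝ) - j') * t a)‖ ≤
      (if j' = j then (A.card : ℝ) else 0) + (∑ k ∈ Ico 1 K, if j = j' + k then V k else 0) +
        ∑ k ∈ Ico 1 K, if j' = j + k then V k else 0 := by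
    intro j hj j' hj'
    rw [Finset.mem_range] at hj hj'
    have hn1 : 0 ≤ ∑ k ∈ Ico 1 K, if j = j' + k then V k else 0 :=
      Finset.sum_nonneg fun k hk => by
        split_ifs
        · exact hV0 k hk
        · exact le_rfl
    have hn2 : 0 ≤ ∑ k ∈ Ico 1 K, if j' = j + k then V k else 0 :=
      Finset.sum_nonneg fun k hk => by
        split_ifs
        · exact hV0 k hk
        · exact le_rfl
    rcases lt_trichotomy j' j with h | h | h
    · have h4 : V (j - j') ≤ ∑ k ∈ Ico 1 K, if j = j' + k then V k else 0 := by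
        refine le_trans (le_of_eq ?_) (Finset.single_le_sum (f := fun k =>
          if j = j' + k then V k else 0) (fun k hk => ?_)
          (Finset.mem_Ico.2 ⟨(by omega : 1 ≤ j - j'), (by omega : j - j' < K)⟩))
        · rw [if_pos (by omega)]
        · split_ifs
          · exact hV0 k hk
          · exact le_rfl
      have h5 := hV (j - j') (by omega) (by omega)
      rw [Nat.cast_sub h.le] at h5
      rw [if_neg h.ne]
      linarith
    · subst h
      rw [if_pos rfl]
      have h5 : ‖∑ a ∈ A, ee (((j' : ℝ) - j') * t a)‖ ≤ A.card := by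
        refine (norm_sum_le _ _).trans ?_
        simp_rw [norm_ee]
        simp
      linarith
    · have h4 : V (j' - j) ≤ ∑ k ∈ Ico 1 K, if j' = j + k then V k else 0 := by
        refine le_trans (le_of_eq ?_) (Finset.single_le_sum (f := fun k =>
          if j' = j + k then V k else 0) (fun k hk => ?_)
          (Finset.mem_Ico.2 ⟨(by omega : 1 ≤ j' - j), (by omega : j' - j < K)⟩))
        · rw [if_pos (by omega)]
        · split_ifs
          · exact hV0 k hk
          · exact le_rfl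
      have h5 := hV (j' - j) (by omega) (by omega)
      rw [Nat.cast_sub h.le] at h5
      have h6 : ‖∑ a ∈ A, ee (((j : ℝ) - j') * t a)‖ = ‖∑ a ∈ A, ee (((j' : ℝ) - j) * t a)‖ := by
        rw [← Complex.norm_conj, map_sum]
        congr 1
        refine Finset.sum_congr rfl fun a _ => ?_
        rw [conj_ee]
        congr 1
        ring
      rw [h6, if_neg h.ne']
      linarith
  have h4 : ∀ j ∈ range K, ∑ j' ∈ range K, ‖∑ a ∈ A, ee (((j : ℝ) - j') * t a)‖ ≤
      A.card + 2 * ∑ k ∈ Ico 1 K, V k := by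
    intro j hj
    refine (Finset.sum_le_sum (h3 j hj)).trans ?_
    rw [Finset.sum_add_distrib, Finset.sum_add_distrib]
    have e1 : ∑ j' ∈ range K, (if j' = j then (A.card : ℝ) else 0) = A.card := by
      rw [Finset.sum_ite_eq' (range K) j, if_pos hj]
    have e2 : ∑ j' ∈ range K, ∑ k ∈ Ico 1 K, (if j = j' + k then V k else 0) ≤
        ∑ k ∈ Ico 1 K, V k := by
      rw [Finset.sum_comm]
      refine Finset.sum_le_sum fun k hk => ?_
      by_cases hjk : k ≤ j
      · have : ∀ j' ∈ range K, (if j = j' + k then V k else 0) = if j' = j - k then V k else 0 := by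
          intro j' _
          by_cases h : j = j' + k
          · rw [if_pos h, if_pos (by omega)]
          · rw [if_neg h, if_neg (by omega)]
        rw [Finset.sum_congr rfl this, Finset.sum_ite_eq' (range K) (j - k)]
        split_ifs
        · exact le_rfl
        · exact hV0 k hk
      · have : ∀ j' ∈ range K, (if j = j' + k then V k else 0) = 0 := by
          intro j' _
          rw [if_neg (by omega)]
        rw [Finset.sum_congr rfl this, Finset.sum_const_zero]
        exact hV0 k hk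
    have e3 : ∑ j' ∈ range K, ∑ k ∈ Ico 1 K, (if j' = j + k then V k else 0) ≤
        ∑ k ∈ Ico 1 K, V k := by
      rw [Finset.sum_comm]
      refine Finset.sum_le_sum fun k hk => ?_
      rw [Finset.sum_ite_eq' (range K) (j + k)]
      split_ifs
      · exact le_rfl
      · exact hV0 k hk
    rw [e1]
    linarith
  have h5 : ((A.filter (fun a => nd (t a) ≤ 1 / (8 * K))).card : ℝ) * (K ^ 2 / 4) ≤
      K * (A.card + 2 * ∑ k ∈ Ico 1 K, V k) := by
    refine (h1.trans h2).trans ((Finset.sum_le_sum h4).trans (le_of_eq ?_))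
    rw [Finset.sum_const, Finset.card_range, nsmul_eq_mul]
  have h6 : (0 : ℝ) < K ^ 2 / 4 := by positivity
  calc ((A.filter (fun a => nd (t a) ≤ 1 / (8 * K))).card : ℝ) ≤
      (K * (A.card + 2 * ∑ k ∈ Ico 1 K, V k)) / (K ^ 2 / 4) := by
        rw [le_div_iff₀ h6]
        exact h5
    _ = 4 / K * (A.card + 2 * ∑ k ∈ Ico 1 K, V k) := by field_simp

end Pool.Agent.NH20.NF
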