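import Mathlib
import Pool.Agent.NH20.NF.Fej
import Pool.Agent.H510R2.Div

/-!
# The pairs `(q, x)` with `‖q (x_1 ω_1 + ... + x_n ω_n)‖` small
-/

set_option autoImplicit false

open Finset Filter Topology

namespace Pool.Agent.NH20.NF

/-- the box `|x_i| ≤ H` -/
noncomputable def bx (n H : ℕ) : Finset (Fin n → ℤ) := Fintype.piFinset fun _ => Icc (-(H : ℤ)) H

lemma mem_bx {n H : ℕ} {x : Fin n → ℤ} : x ∈ bx n H ↔ ∀ i, |x i| ≤ H := by
  unfold bx
  rw [Fintype.mem_piFinset]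
  simp only [Finset.mem_Icc, abs_le]

lemma card_bx (n H : ℕ) : (bx n H).card = (2 * H + 1) ^ n := by
  unfold bx
  rw [Fintype.card_piFinset]
  simp_rw [card_box]
  rw [Finset.prod_const, Finset.card_univ, Fintype.card_fin]

/-- the linear form `x_1 ω_1 + ... + x_n ω_n` -/
noncomputable def lf {n : ℕ} (ω : Fin n → ℝ) (x : Fin n → ℤ) : ℝ := ∑ i, (x i : ℝ) * ω i

lemma box_sum {n : ℕ} (ω : Fin n → ℝ) (hli : Ind ω) (l : ℕ) (hl : 1 ≤ l) (H : ℕ) :
    ‖∑ x ∈ bx n H, ee (l * lf ω x)‖ ≤ ∏ i, gm (2 * H + 1) (l * ω i) := by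
  have h1 : ∀ x ∈ bx n H, ee (l * lf ω x) = ∏ i, ee (l * ω i * (x i : ℝ)) := by
    intro x _
    rw [← ee_sum]
    congr 1
    unfold lf
    rw [Finset.mul_sum]
    exact Finset.sum_congr rfl fun i _ => by ring
  rw [Finset.sum_congr rfl h1]
  have h2 := Finset.prod_univ_sum (fun _ : Fin n => Icc (-(H : ℤ)) H)
    (fun i (j : ℤ) => ee (l * ω i * (j : ℝ)))
  unfold bx
  rw [← h2, norm_prod]
  exact Finset.prod_le_prod (fun i _ => norm_nonneg _) fun i _ => geo _ (nd_pos hli l hl i) H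

/-- sums over products -/
lemma sum_mul_le (g : ℕ → ℝ) (hg : ∀ l, 0 ≤ g l) (K F : ℕ) :
    ∑ k ∈ Ico 1 K, ∑ q ∈ Icc 1 F, g (k * q) ≤ ∑ l ∈ Icc 1 (K * F), (l.divisors.card : ℝ) * g l := by
  classical
  rw [← Finset.sum_product' (Ico 1 K) (Icc 1 F) (fun k q => g (k * q))]
  have hmaps : ∀ p ∈ Ico 1 K ×ˢ Icc 1 F, (fun p : ℕ × ℕ => p.1 * p.2) p ∈ Icc 1 (K * F) := by
    rintro ⟨k, q⟩ hp
    rw [Finset.mem_product, Finset.mem_Ico, Finset.mem_Icc] at hp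
    rw [Finset.mem_Icc]
    simp only at hp ⊢
    exact ⟨Nat.mul_pos (by omega) (by omega), Nat.mul_le_mul hp.1.2.le hp.2.2⟩
  rw [← Finset.sum_fiberwise_of_maps_to hmaps]
  refine Finset.sum_le_sum fun l hl => ?_
  rw [Finset.mem_Icc] at hl
  have h1 : ∀ p ∈ (Ico 1 K ×ˢ Icc 1 F).filter (fun p : ℕ × ℕ => p.1 * p.2 = l),
      g (p.1 * p.2) = g l := by
    intro p hp
    rw [Finset.mem_filter] at hp
    rw [hp.2]
  have h2 : ((Ico 1 K ×ˢ Icc 1 F).filter (fun p : ℕ × ℕ => p.1 * p.2 = l)).card ≤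
      l.divisors.card := by
    apply Finset.card_le_card_of_injOn (fun p => p.1)
    · intro p hp
      have hp' := Finset.mem_filter.1 (Finset.mem_coe.1 hp)
      simp only [Finset.mem_coe, Nat.mem_divisors]
      exact ⟨⟨p.2, hp'.2.symm⟩, by omega⟩
    · intro p hp p' hp' h
      have hp1 := Finset.mem_filter.1 (Finset.mem_coe.1 hp)
      have hp2 := Finset.mem_filter.1 (Finset.mem_coe.1 hp')
      simp only at h
      have h3 : 0 < p.1 := by
        have := Finset.mem_product.1 hp1.1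
        rw [Finset.mem_Ico] at this
        omega
      have h4 : p.1 * p.2 = p.1 * p'.2 := by
        rw [hp1.2]
        rw [h]
        exact hp2.2.symm
      exact Prod.ext h (Nat.eq_of_mul_eq_mul_left h3 h4)
  rw [Finset.sum_congr rfl h1, Finset.sum_const, nsmul_eq_mul]
  exact mul_le_mul_of_nonneg_right (by exact_mod_cast h2) (hg l)

/-- **The pairs** `(q, x)` with `‖q (x_1 ω_1 + ... + x_n ω_n)‖ ≤ 1 / (8 K)` -/
theorem pairs {n : ℕ} (ω : Fin (n + 1) → ℝ) (hli : Ind ω) (τ c D : ℝ) (hτ : 0 < τ) (hc : 0 < c)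
    (hS : ∀ k : ℕ, 1 ≤ k → c ≤ (k : ℝ) ^ (1 + τ) * ∏ i, nd (k * ω i))
    (hD0 : 0 < D) (hD : ∀ l : ℕ, 1 ≤ l → (l.divisors.card : ℝ) ≤ D * (l : ℝ) ^ τ)
    (K F H J : ℕ) (hK : 1 ≤ K) (hF : 1 ≤ F) (hJ : (2 * H + 1 : ℝ) ≤ 2 ^ J) :
    (((Icc 1 F ×ˢ bx (n + 1) H).filter (fun a : ℕ × (Fin (n + 1) → ℤ) =>
      nd (a.1 * lf ω a.2) ≤ 1 / (8 * K))).card : ℝ) ≤
      4 / K * (F * (2 * H + 1) ^ (n + 1) + 2 * (D * ((K * F : ℕ) : ℝ) ^ τ *
        (((J : ℝ) + 1) ^ (n + 1) * (2 ^ (n + 1) * (2 ^ (n + 2) / c)) *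
          ((K * F : ℕ) : ℝ) ^ (1 + τ)))) := by
  classical
  have hK0 : (0 : ℝ) < K := by exact_mod_cast (by omega : 0 < K)
  set g : ℕ → ℝ := fun l => ∏ i, gm (2 * H + 1) (l * ω i) with hg
  have hB0 : (0 : ℝ) ≤ 2 * H + 1 := by positivity
  have hg0 : ∀ l, 0 ≤ g l := fun l => Finset.prod_nonneg fun i _ => gm_nonneg hB0 _
  have h1 := fejer (Icc 1 F ×ˢ bx (n + 1) H) (fun a : ℕ × (Fin (n + 1) → ℤ) => a.1 * lf ω a.2) K hK
    (fun k => ∑ q ∈ Icc 1 F, g (k * q)) (by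
      intro k hk _
      rw [Finset.sum_product]
      refine (norm_sum_le _ _).trans (Finset.sum_le_sum fun q hq => ?_)
      rw [Finset.mem_Icc] at hq
      have h2 : ∀ x ∈ bx (n + 1) H, ee ((k : ℝ) * ((q : ℝ) * lf ω x)) =
          ee (((k * q : ℕ) : ℝ) * lf ω x) := by
        intro x _
        congr 1
        push_cast
        ring
      simp only
      rw [Finset.sum_congr rfl h2]
      exact box_sum ω hli (k * q) (Nat.mul_pos (by omega) (by omega)) H)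
  refine h1.trans ?_
  apply mul_le_mul_of_nonneg_left _ (by positivity)
  have h2 : ((Icc 1 F ×ˢ bx (n + 1) H).card : ℝ) = F * (2 * H + 1) ^ (n + 1) := by
    rw [Finset.card_product, card_bx, Nat.card_Icc]
    push_cast
    ring_nf
  rw [h2]
  have hKF : 1 ≤ K * F := Nat.mul_pos hK hF
  have h3 : ∑ k ∈ Ico 1 K, ∑ q ∈ Icc 1 F, g (k * q) ≤ D * ((K * F : ℕ) : ℝ) ^ τ *
        (((J : ℝ) + 1) ^ (n + 1) * (2 ^ (n + 1) * (2 ^ (n + 2) / c)) *
          ((K * F : ℕ) : ℝ) ^ (1 + τ)) := by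
    refine (sum_mul_le g hg0 K F).trans ?_
    calc ∑ l ∈ Icc 1 (K * F), (l.divisors.card : ℝ) * g l ≤
        ∑ l ∈ Icc 1 (K * F), D * ((K * F : ℕ) : ℝ) ^ τ * g l := by
          refine Finset.sum_le_sum fun l hl => ?_
          rw [Finset.mem_Icc] at hl
          refine mul_le_mul_of_nonneg_right ((hD l hl.1).trans ?_) (hg0 l)
          apply mul_le_mul_of_nonneg_left _ hD0.le
          exact Real.rpow_le_rpow (Nat.cast_nonneg _) (by exact_mod_cast hl.2) hτ.le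
      _ = D * ((K * F : ℕ) : ℝ) ^ τ * ∑ l ∈ Icc 1 (K * F), g l := by rw [Finset.mul_sum]
      _ ≤ _ := by
          apply mul_le_mul_of_nonneg_left _ (by positivity)
          exact sum_gm ω hli τ c hτ hc hS (K * F) hKF (2 * H + 1) hB0 J hJ
  linarith

end Pool.Agent.NH20.NF
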