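import Mathlib
import Pool.Agent.NH20.NF.Pairs
import Pool.Agent.NH20.NF.PB

/-!
# The exceptional linear forms
-/

set_option autoImplicit false

open Finset Filter Topology

namespace Pool.Agent.NH20.NF

open Classical in
/-- the `x ≠ 0` in the box with `q ‖q (x_1 ω_1 + ... + x_n ω_n)‖ ≤ U` for some `q ≤ Z` -/
noncomputable def Exc {n : ℕ} (ω : Fin n → ℝ) (H Z : ℕ) (U : ℝ) : Finset (Fin n → ℤ) :=
  (bx n H).filter fun x => x ≠ 0 ∧ ∃ q : ℕ, 1 ≤ q ∧ q ≤ Z ∧ q * nd (q * lf ω x) ≤ U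

theorem exc_le {n : ℕ} (ω : Fin (n + 1) → ℝ) (hli : Ind ω) (τ c D : ℝ) (hτ : 0 < τ) (hc : 0 < c)
    (hS : ∀ k : ℕ, 1 ≤ k → c ≤ (k : ℝ) ^ (1 + τ) * ∏ i, nd (k * ω i))
    (hD0 : 0 < D) (hD : ∀ l : ℕ, 1 ≤ l → (l.divisors.card : ℝ) ≤ D * (l : ℝ) ^ τ)
    (U : ℝ) (hU : 0 < U) (hU8 : 8 * U ≤ 1) (Z H J : ℕ) (hJ : (2 * H + 1 : ℝ) ≤ 2 ^ J) :
    ((Exc ω H Z U).card : ℝ) ≤ ((Nat.log 2 Z : ℝ) + 2) * (128 * U * (2 * H + 1) ^ (n + 1) +
      16 * D * (2 ^ (n + 1) * (2 ^ (n + 2) / c)) * ((J : ℝ) + 1) ^ (n + 1) * Z *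
        ((Z : ℝ) ^ 2 / (4 * U)) ^ (2 * τ)) := by
  classical
  rcases Nat.eq_zero_or_pos Z with hZ | hZ
  · have h1 : Exc ω H Z U = ∅ := by
      unfold Exc
      rw [Finset.filter_eq_empty_iff]
      rintro x _ ⟨-, q, h1, h2, -⟩
      omega
    rw [h1, Finset.card_empty, Nat.cast_zero]
    positivity
  set K : ℕ → ℕ := fun j => ⌊(2 : ℝ) ^ j / (8 * U)⌋₊ with hK
  have hKx : ∀ j, (1 : ℝ) ≤ (2 : ℝ) ^ j / (8 * U) := by
    intro j
    rw [le_div_iff₀ (by positivity), one_mul]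
    exact hU8.trans (one_le_pow₀ (by norm_num))
  have hK1 : ∀ j, 1 ≤ K j := by
    intro j
    rw [hK]
    exact Nat.le_floor (by exact_mod_cast hKx j)
  have hKle : ∀ j, (K j : ℝ) ≤ (2 : ℝ) ^ j / (8 * U) := fun j =>
    Nat.floor_le (by positivity)
  have hKge : ∀ j, (2 : ℝ) ^ j / (16 * U) ≤ K j := by
    intro j
    have h1 := Nat.lt_floor_add_one ((2 : ℝ) ^ j / (8 * U))
    have h2 : (1 : ℝ) ≤ K j := by exact_mod_cast hK1 j
    have h3 : (2 : ℝ) ^ j / (16 * U) = (2 : ℝ) ^ j / (8 * U) / 2 := by field_simp; norm_num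
    rw [h3]
    have h4 : (2 : ℝ) ^ j / (8 * U) < (K j : ℝ) + 1 := h1
    linarith
  let P : ℕ → Finset (ℕ × (Fin (n + 1) → ℤ)) := fun j =>
    (Icc 1 (2 ^ (j + 1)) ×ˢ bx (n + 1) H).filter (fun a : ℕ × (Fin (n + 1) → ℤ) =>
      nd (a.1 * lf ω a.2) ≤ 1 / (8 * K j))
  have hsub : Exc ω H Z U ⊆ (range (Nat.log 2 Z + 1)).biUnion fun j => (P j).image Prod.snd := by
    intro x hx
    unfold Exc at hx
    rw [Finset.mem_filter] at hx
    obtain ⟨hxb, -, q, hq1, hqZ, hq⟩ := hx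
    have hq0 : (0 : ℝ) < q := by exact_mod_cast (by omega : 0 < q)
    have h1 : 2 ^ (Nat.log 2 q) ≤ q := Nat.pow_log_le_self 2 (by omega)
    have h2 : q < 2 ^ (Nat.log 2 q + 1) := Nat.lt_pow_succ_log_self (by norm_num) q
    rw [Finset.mem_biUnion]
    refine ⟨Nat.log 2 q, Finset.mem_range.2 (Nat.lt_succ_of_le (Nat.log_mono_right hqZ)), ?_⟩
    rw [Finset.mem_image]
    refine ⟨(q, x), Finset.mem_filter.2 ⟨Finset.mem_product.2 ⟨Finset.mem_Icc.2 ⟨hq1, h2.le⟩, hxb⟩,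
      ?_⟩, rfl⟩
    simp only
    have hKp : (0 : ℝ) < K (Nat.log 2 q) := by exact_mod_cast (hK1 _)
    have h3 := hKle (Nat.log 2 q)
    have h4 : (2 : ℝ) ^ (Nat.log 2 q) ≤ q := by exact_mod_cast h1
    rw [le_div_iff₀ (by positivity)] at h3
    rw [le_div_iff₀ (by positivity)]
    have h5 := nd_nonneg (q * lf ω x)
    have h6 : (K (Nat.log 2 q) : ℝ) * (8 * U) ≤ q := h3.trans h4
    by_contra hcon
    push Not at hcon
    have h7 : (q : ℝ) < q * (nd (q * lf ω x) * (8 * K (Nat.log 2 q))) := by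
      have := mul_lt_mul_of_pos_left hcon hq0
      rwa [mul_one] at this
    have h8 : (q : ℝ) * (nd (q * lf ω x) * (8 * K (Nat.log 2 q))) =
        (q * nd (q * lf ω x)) * (8 * K (Nat.log 2 q)) := by ring
    rw [h8] at h7
    have h9 : (q * nd (q * lf ω x)) * (8 * K (Nat.log 2 q)) ≤ U * (8 * K (Nat.log 2 q)) :=
      mul_le_mul_of_nonneg_right hq (by positivity)
    linarith
  have hcard := (Finset.card_le_card hsub).trans Finset.card_biUnion_le
  have hterm : ∀ j ∈ range (Nat.log 2 Z + 1), (((P j).image Prod.snd).card : ℝ) ≤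
      128 * U * (2 * H + 1) ^ (n + 1) +
      16 * D * (2 ^ (n + 1) * (2 ^ (n + 2) / c)) * ((J : ℝ) + 1) ^ (n + 1) * Z *
        ((Z : ℝ) ^ 2 / (4 * U)) ^ (2 * τ) := by
    intro j hj
    rw [Finset.mem_range] at hj
    have hjZ : 2 ^ j ≤ Z := Nat.pow_le_of_le_log (by omega) (by omega)
    have hjZ' : (2 : ℝ) ^ j ≤ Z := by exact_mod_cast hjZ
    refine le_trans (Nat.cast_le.2 Finset.card_image_le) ?_
    have h1 := pairs ω hli τ c D hτ hc hS hD0 hD (K j) (2 ^ (j + 1)) H J (hK1 j)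
      (Nat.one_le_two_pow) hJ
    refine h1.trans ?_
    have hKp : (0 : ℝ) < K j := by exact_mod_cast (hK1 _)
    have h2j : (0 : ℝ) < 2 ^ j := by positivity
    set A : ℝ := (2 * (H : ℝ) + 1) ^ (n + 1) with hA
    have hA0 : 0 ≤ A := by positivity
    set Q : ℝ := ((J : ℝ) + 1) ^ (n + 1) * (2 ^ (n + 1) * (2 ^ (n + 2) / c)) with hQ
    have hQ0 : 0 ≤ Q := by positivity
    set X : ℝ := ((K j * 2 ^ (j + 1) : ℕ) : ℝ) with hX
    have hXe : X = K j * (2 * 2 ^ j) := by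
      rw [hX]
      push_cast
      ring
    have hX0 : 0 < X := by rw [hXe]; positivity
    have hXle : X ≤ (Z : ℝ) ^ 2 / (4 * U) := by
      rw [hXe]
      calc (K j : ℝ) * (2 * 2 ^ j) ≤ (2 : ℝ) ^ j / (8 * U) * (2 * 2 ^ j) :=
            mul_le_mul_of_nonneg_right (hKle j) (by positivity)
        _ = (2 : ℝ) ^ j * 2 ^ j / (4 * U) := by field_simp; norm_num
        _ ≤ (Z : ℝ) ^ 2 / (4 * U) := by
            apply div_le_div_of_nonneg_right _ (by positivity)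
            rw [sq]
            exact mul_le_mul hjZ' hjZ' h2j.le (Nat.cast_nonneg _)
    have h4 : 4 / (K j : ℝ) * (((2 ^ (j + 1) : ℕ) : ℝ) * A) ≤ 128 * U * A := by
      have h5 : 4 / (K j : ℝ) ≤ 64 * U / 2 ^ j := by
        rw [div_le_div_iff₀ hKp h2j]
        have := hKge j
        rw [div_le_iff₀ (by positivity)] at this
        nlinarith
      calc 4 / (K j : ℝ) * (((2 ^ (j + 1) : ℕ) : ℝ) * A) ≤ 64 * U / 2 ^ j * (((2 ^ (j + 1) : ℕ) : ℝ) * A) :=
            mul_le_mul_of_nonneg_right h5 (by positivity)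
        _ = 128 * U * A := by
            push_cast
            rw [pow_succ]
            field_simp
            ring
    have h5 : 4 / (K j : ℝ) * (2 * (D * X ^ τ * (Q * X ^ (1 + τ)))) ≤
        16 * D * Q * Z * ((Z : ℝ) ^ 2 / (4 * U)) ^ (2 * τ) := by
      have h6 : X ^ τ * X ^ (1 + τ) = X * X ^ (2 * τ) := by
        rw [← Real.rpow_add hX0]
        conv_rhs => rw [← Real.rpow_one X, ← Real.rpow_mul hX0.le, one_mul, ← Real.rpow_add hX0]
        congr 1
        ring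
      have h7 : X ^ (2 * τ) ≤ ((Z : ℝ) ^ 2 / (4 * U)) ^ (2 * τ) :=
        Real.rpow_le_rpow hX0.le hXle (by positivity)
      have h8 : 4 / (K j : ℝ) * X = 8 * 2 ^ j := by
        rw [hXe]
        field_simp
        norm_num
      calc 4 / (K j : ℝ) * (2 * (D * X ^ τ * (Q * X ^ (1 + τ)))) =
          2 * D * Q * (4 / (K j : ℝ)) * (X ^ τ * X ^ (1 + τ)) := by ring
        _ = 2 * D * Q * (4 / (K j : ℝ) * X) * X ^ (2 * τ) := by rw [h6]; ring
        _ = 16 * D * Q * 2 ^ j * X ^ (2 * τ) := by rw [h8]; ring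
        _ ≤ 16 * D * Q * Z * ((Z : ℝ) ^ 2 / (4 * U)) ^ (2 * τ) := by
            apply mul_le_mul _ h7 (by positivity) (by positivity)
            exact mul_le_mul_of_nonneg_left hjZ' (by positivity)
    calc 4 / (K j : ℝ) * (((2 ^ (j + 1) : ℕ) : ℝ) * A + 2 * (D * X ^ τ * (Q * X ^ (1 + τ)))) =
        4 / (K j : ℝ) * (((2 ^ (j + 1) : ℕ) : ℝ) * A) +
          4 / (K j : ℝ) * (2 * (D * X ^ τ * (Q * X ^ (1 + τ)))) := by ring
      _ ≤ 128 * U * A + 16 * D * Q * Z * ((Z : ℝ) ^ 2 / (4 * U)) ^ (2 * τ) := add_le_add h4 h5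
      _ = _ := by rw [hQ]; ring
  set V : ℝ := 128 * U * (2 * H + 1) ^ (n + 1) +
      16 * D * (2 ^ (n + 1) * (2 ^ (n + 2) / c)) * ((J : ℝ) + 1) ^ (n + 1) * Z *
        ((Z : ℝ) ^ 2 / (4 * U)) ^ (2 * τ) with hV
  have hV0 : 0 ≤ V := by positivity
  calc ((Exc ω H Z U).card : ℝ) ≤ ((∑ j ∈ range (Nat.log 2 Z + 1), ((P j).image Prod.snd).card : ℕ) : ℝ) :=
        Nat.cast_le.2 hcard
    _ = ∑ j ∈ range (Nat.log 2 Z + 1), (((P j).image Prod.snd).card : ℝ) := by push_cast; rfl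
    _ ≤ ∑ j ∈ range (Nat.log 2 Z + 1), V := Finset.sum_le_sum hterm
    _ = ((Nat.log 2 Z : ℝ) + 1) * V := by
        rw [Finset.sum_const, Finset.card_range, nsmul_eq_mul]
        push_cast
        ring
    _ ≤ ((Nat.log 2 Z : ℝ) + 2) * V := mul_le_mul_of_nonneg_right (by linarith) hV0

lemma nd_neg_le (x : ℝ) : nd (-x) ≤ nd x := by
  refine (nd_le (-x) (-round x)).trans (le_of_eq ?_)
  unfold nd
  push_cast
  rw [← abs_neg]
  congr 1
  ring

lemma nd_neg (x : ℝ) : nd (-x) = nd x :=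
  le_antisymm (nd_neg_le x) (by have := nd_neg_le (-x); rwa [neg_neg] at this)

/-- one form -/
theorem exc_one (ω : Fin 1 → ℝ) (τ c D : ℝ) (hτ : 0 < τ) (hc : 0 < c)
    (hS : ∀ k : ℕ, 1 ≤ k → c ≤ (k : ℝ) ^ (1 + τ) * ∏ i, nd (k * ω i))
    (hD0 : 0 < D) (hD : ∀ l : ℕ, 1 ≤ l → (l.divisors.card : ℝ) ≤ D * (l : ℝ) ^ τ)
    (U : ℝ) (hU : 0 < U) (Z H : ℕ) (hH : 1 ≤ H) :
    ((Exc ω H Z U).card : ℝ) ≤ 2 * (D * ((Z * H : ℕ) : ℝ) ^ τ) * (((Nat.log 2 (Z * H) : ℝ) + 2) *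
      (8 / c * (U * H) * (2 * ((Z * H : ℕ) : ℝ)) ^ τ)) := by
  classical
  have hH0 : (0 : ℝ) < H := by exact_mod_cast (by omega : 0 < H)
  set L : Finset ℕ := (Icc 1 (Z * H)).filter (fun l => (l : ℝ) * nd (l * ω 0) ≤ U * H) with hL
  have hsub : Exc ω H Z U ⊆ L.biUnion fun l => (l.divisors.image (fun d : ℕ => fun _ : Fin 1 => (d : ℤ))) ∪
      (l.divisors.image (fun d : ℕ => fun _ : Fin 1 => -(d : ℤ))) := by
    intro x hx
    unfold Exc at hx
    rw [Finset.mem_filter, mem_bx] at hx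
    obtain ⟨hxb, hx0, q, hq1, hqZ, hq⟩ := hx
    have hx00 : x 0 ≠ 0 := by
      intro h
      apply hx0
      funext i
      rw [Fin.fin_one_eq_zero i, h]
      rfl
    have hlf : lf ω x = x 0 * ω 0 := by
      unfold lf
      rw [Fin.sum_univ_one]
    have hxn : 1 ≤ (x 0).natAbs := Int.natAbs_pos.2 hx00
    have hxH : (x 0).natAbs ≤ H := by
      have h := hxb 0
      rw [Int.abs_eq_natAbs] at h
      exact_mod_cast h
    have hq0 : (0 : ℝ) < q := by exact_mod_cast (by omega : 0 < q)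
    have hnd : nd (((q * (x 0).natAbs : ℕ) : ℝ) * ω 0) = nd (q * lf ω x) := by
      rw [hlf]
      rcases Int.natAbs_eq (x 0) with h | h
      · congr 1
        push_cast
        rw [h]
        simp
        ring
      · rw [← nd_neg]
        congr 1
        push_cast
        rw [h]
        simp
        ring
    rw [Finset.mem_biUnion]
    refine ⟨q * (x 0).natAbs, ?_, ?_⟩
    · rw [hL, Finset.mem_filter, Finset.mem_Icc]
      refine ⟨⟨Nat.mul_pos (by omega) (by omega), Nat.mul_le_mul hqZ hxH⟩, ?_⟩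
      rw [hnd]
      push_cast
      have h1 : (((x 0).natAbs : ℕ) : ℝ) ≤ H := by exact_mod_cast hxH
      calc (q : ℝ) * (((x 0).natAbs : ℕ) : ℝ) * nd (q * lf ω x) =
          (q * nd (q * lf ω x)) * (((x 0).natAbs : ℕ) : ℝ) := by ring
        _ ≤ U * H := mul_le_mul hq h1 (Nat.cast_nonneg _) hU.le
    · rw [Finset.mem_union, Finset.mem_image, Finset.mem_image]
      have hdiv : (x 0).natAbs ∈ (q * (x 0).natAbs).divisors := by
        rw [Nat.mem_divisors]
        refine ⟨Dvd.intro_left _ rfl, ?_⟩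
        have : 0 < q * (x 0).natAbs := Nat.mul_pos (by omega) (by omega)
        omega
      rcases Int.natAbs_eq (x 0) with h | h
      · left
        refine ⟨(x 0).natAbs, hdiv, ?_⟩
        funext i
        rw [Fin.fin_one_eq_zero i]
        exact h.symm
      · right
        refine ⟨(x 0).natAbs, hdiv, ?_⟩
        funext i
        rw [Fin.fin_one_eq_zero i]
        exact h.symm
  have h1 := (Finset.card_le_card hsub).trans Finset.card_biUnion_le
  have h2 : ∀ l ∈ L, ((((l.divisors.image (fun d : ℕ => fun _ : Fin 1 => (d : ℤ))) ∪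
      (l.divisors.image (fun d : ℕ => fun _ : Fin 1 => -(d : ℤ)))).card : ℕ) : ℝ) ≤
      2 * (D * ((Z * H : ℕ) : ℝ) ^ τ) := by
    intro l hl
    rw [hL, Finset.mem_filter, Finset.mem_Icc] at hl
    have h3 : ((l.divisors.image (fun d : ℕ => fun _ : Fin 1 => (d : ℤ))) ∪
      (l.divisors.image (fun d : ℕ => fun _ : Fin 1 => -(d : ℤ)))).card ≤ 2 * l.divisors.card := by
      refine (Finset.card_union_le _ _).trans ?_
      have h4 := Finset.card_image_le (s := l.divisors) (f := fun d : ℕ => fun _ : Fin 1 => (d : ℤ))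
      have h5 := Finset.card_image_le (s := l.divisors) (f := fun d : ℕ => fun _ : Fin 1 => -(d : ℤ))
      omega
    have h4 : ((l.divisors.card : ℕ) : ℝ) ≤ D * ((Z * H : ℕ) : ℝ) ^ τ := by
      refine (hD l hl.1.1).trans (mul_le_mul_of_nonneg_left ?_ hD0.le)
      exact Real.rpow_le_rpow (Nat.cast_nonneg _) (by exact_mod_cast hl.1.2) hτ.le
    have h5 : ((((l.divisors.image (fun d : ℕ => fun _ : Fin 1 => (d : ℤ))) ∪
      (l.divisors.image (fun d : ℕ => fun _ : Fin 1 => -(d : ℤ)))).card : ℕ) : ℝ) ≤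
      2 * (l.divisors.card : ℝ) := by exact_mod_cast h3
    linarith
  -- the number of l
  have h3 : (L.card : ℝ) ≤ ((Nat.log 2 (Z * H) : ℝ) + 2) *
      (8 / c * (U * H) * (2 * ((Z * H : ℕ) : ℝ)) ^ τ) := by
    rcases Nat.eq_zero_or_pos (Z * H) with hZH | hZH
    · have : L = ∅ := by
        rw [hL, hZH]
        rfl
      rw [this, Finset.card_empty, Nat.cast_zero]
      positivity
    have hsub2 : L ⊆ (range (Nat.log 2 (Z * H) + 1)).biUnion fun j =>
        (Icc 1 (2 ^ (j + 1))).filter (fun l : ℕ => ∀ i, nd (l * ω i) ≤ (fun _ => U * H / 2 ^ j) i) := by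
      intro l hl
      rw [hL, Finset.mem_filter, Finset.mem_Icc] at hl
      have h4 : 2 ^ (Nat.log 2 l) ≤ l := Nat.pow_log_le_self 2 (by omega)
      have h5 : l < 2 ^ (Nat.log 2 l + 1) := Nat.lt_pow_succ_log_self (by norm_num) l
      rw [Finset.mem_biUnion]
      refine ⟨Nat.log 2 l, Finset.mem_range.2 (Nat.lt_succ_of_le (Nat.log_mono_right hl.1.2)), ?_⟩
      rw [Finset.mem_filter, Finset.mem_Icc]
      refine ⟨⟨hl.1.1, h5.le⟩, ?_⟩
      intro i
      rw [Fin.fin_one_eq_zero i]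
      simp only
      rw [le_div_iff₀ (by positivity)]
      have h6 : (2 : ℝ) ^ (Nat.log 2 l) ≤ l := by exact_mod_cast h4
      have h7 := nd_nonneg (l * ω 0)
      nlinarith [hl.2]
    refine le_trans (Nat.cast_le.2 ((Finset.card_le_card hsub2).trans Finset.card_biUnion_le)) ?_
    push_cast
    have h4 : ∀ j ∈ range (Nat.log 2 (Z * H) + 1),
        (((Icc 1 (2 ^ (j + 1))).filter (fun l : ℕ => ∀ i, nd (l * ω i) ≤
          (fun _ => U * H / 2 ^ j) i)).card : ℝ) ≤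
          8 / c * (U * H) * (2 * ((Z * H : ℕ) : ℝ)) ^ τ := by
      intro j hj
      rw [Finset.mem_range] at hj
      have hj2 : 2 ^ j ≤ Z * H := Nat.pow_le_of_le_log (by omega) (by omega)
      have h5 := count ω τ c hτ hc hS (2 ^ (j + 1)) Nat.one_le_two_pow (fun _ => U * H / 2 ^ j)
        (fun _ => by positivity)
      refine h5.trans ?_
      rw [Fin.prod_univ_one]
      push_cast
      have h6 : ((2 : ℝ) ^ (j + 1)) ^ (1 + τ) = 2 ^ (j + 1) * ((2 : ℝ) ^ (j + 1)) ^ τ := by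
        rw [Real.rpow_add (by positivity), Real.rpow_one]
      rw [h6]
      have h7 : ((2 : ℝ) ^ (j + 1)) ^ τ ≤ (2 * (Z * H : ℝ)) ^ τ := by
        apply Real.rpow_le_rpow (by positivity) _ hτ.le
        rw [pow_succ, mul_comm]
        have : (2 : ℝ) ^ j ≤ Z * H := by exact_mod_cast hj2
        linarith
      calc (2 : ℝ) ^ (0 + 2) / c * (2 ^ (j + 1) * ((2 : ℝ) ^ (j + 1)) ^ τ) * (U * H / 2 ^ j) =
          8 / c * (U * H) * ((2 : ℝ) ^ (j + 1)) ^ τ := by
            rw [pow_succ (2 : ℝ) j]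
            field_simp
            ring
        _ ≤ _ := by
            apply mul_le_mul_of_nonneg_left h7 (by positivity)
    refine (Finset.sum_le_sum h4).trans ?_
    rw [Finset.sum_const, Finset.card_range, nsmul_eq_mul]
    push_cast
    apply mul_le_mul_of_nonneg_right _ (by positivity)
    linarith
  refine le_trans (Nat.cast_le.2 h1) ?_
  rw [Nat.cast_sum]
  refine (Finset.sum_le_sum h2).trans ?_
  rw [Finset.sum_const, nsmul_eq_mul, mul_comm]
  exact mul_le_mul_of_nonneg_left h3 (by positivity)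

end Pool.Agent.NH20.NF
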