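import Mathlib
import Pool.Agent.NH20.NF.Exc

/-!
# The number of exceptional linear forms is a smaller power
-/

set_option autoImplicit false

open Finset Filter Topology

namespace Pool.Agent.NH20.NF

lemma PB_floor (k : ℝ) : PB (fun H => ((⌊(H : ℝ) ^ k⌋₊ : ℕ) : ℝ)) k :=
  (PB.self k).mono (Filter.Eventually.of_forall fun H => Nat.floor_le (by positivity))

lemma exc_PB_many {n : ℕ} (ω : Fin (n + 1) → ℝ) (halg : ∀ i, IsAlgebraic ℚ (ω i)) (hli : Ind ω)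
    (κ : ℝ) (hκ1 : 1 ≤ κ) (hκ : κ < n + 2) (S : ℝ) (hS0 : 0 < S) :
    ∃ δ : ℝ, 0 < δ ∧ δ < 1 / 2 ∧ ∃ e : ℝ, e < n + 1 ∧
      PB (fun H => ((Exc ω H ⌊(H : ℝ) ^ (κ - 1 + δ)⌋₊ (S * (H : ℝ) ^ (-1 + 2 * δ))).card : ℝ)) e := by
  set γ : ℝ := n + 2 - κ with hγ
  have hγ0 : 0 < γ := by rw [hγ]; linarith
  set δ : ℝ := min (γ / 4) (1 / 8) with hδ
  have hδ0 : 0 < δ := by rw [hδ]; apply lt_min <;> [positivity; norm_num]
  have hδ1 : δ ≤ γ / 4 := min_le_left _ _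
  have hδ2 : δ ≤ 1 / 8 := min_le_right _ _
  refine ⟨δ, hδ0, by linarith, ?_⟩
  set k : ℝ := κ - 1 + δ with hk
  have hk0 : 0 < k := by rw [hk]; linarith
  set s : ℝ := min (γ / 8) (1 / 8) with hs
  have hs0 : 0 < s := by rw [hs]; apply lt_min <;> [positivity; norm_num]
  have hs1 : s ≤ γ / 8 := min_le_left _ _
  have hs2 : s ≤ 1 / 8 := min_le_right _ _
  set τ : ℝ := γ / (16 * (2 * k + 1)) with hτ
  have hτ0 : 0 < τ := by positivity
  have hτk : 2 * τ * (2 * k + 1) = γ / 8 := by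
    rw [hτ]
    field_simp
    norm_num
  obtain ⟨c, hc, hSc⟩ := schmidt ω halg hli τ hτ0
  obtain ⟨D, hD0, hD⟩ := Pool.Agent.H510R2.divisor_bound τ hτ0
  -- the functions
  have hZ : PB (fun H => ((⌊(H : ℝ) ^ k⌋₊ : ℕ) : ℝ)) k := PB_floor k
  have hU : PB (fun H => S * (H : ℝ) ^ (-1 + 2 * δ)) (-1 + 2 * δ) :=
    (PB.self _).const_mul (fun H => by positivity) S
  have hlin : PB (fun H => (2 * (H : ℝ) + 1)) 1 :=
    (PB.id.const_mul (fun H => by positivity) 2).add ((PB.const 1).mono_exp (by norm_num))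
  have hA : PB (fun H => (2 * (H : ℝ) + 1) ^ (n + 1)) (((n + 1 : ℕ) : ℝ) * 1) :=
    hlin.pow (fun H => by positivity) (n + 1)
  have hlog : PB (fun H => ((Nat.log 2 ⌊(H : ℝ) ^ k⌋₊ : ℕ) : ℝ) + 2) s := hZ.log hk0.le s hs0
  have hJ0 : PB (fun H => (((2 * H + 1 : ℕ)) : ℝ)) 1 := by
    refine hlin.mono (Filter.Eventually.of_forall fun H => ?_)
    push_cast
    exact le_rfl
  have hJ : PB (fun H => ((((Nat.log 2 (2 * H + 1) : ℕ) : ℝ) + 2) ^ (n + 1)))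
      (((n + 1 : ℕ) : ℝ) * (s / (n + 1))) :=
    (hJ0.log (by norm_num) (s / (n + 1)) (by positivity)).pow (fun H => by positivity) (n + 1)
  have hX : PB (fun H => ((((⌊(H : ℝ) ^ k⌋₊ : ℕ) : ℝ) ^ 2 / (4 * (S * (H : ℝ) ^ (-1 + 2 * δ))))))
      (2 * k + 1) := by
    have h1 : PB (fun H => ((H : ℝ) ^ k) ^ 2 * (1 / (4 * S) * (H : ℝ) ^ (1 - 2 * δ)))
        (((2 : ℕ) : ℝ) * k + (1 - 2 * δ)) :=
      ((PB.self k).pow (fun H => by positivity) 2).mul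
        ((PB.self _).const_mul (fun H => by positivity) _) (fun H => by positivity)
    refine (h1.mono ?_).mono_exp (by push_cast; linarith)
    filter_upwards [eventually_ge_atTop 1] with H hH
    have hH0 : (0 : ℝ) < H := by exact_mod_cast (by omega : 0 < H)
    have h2 : (H : ℝ) ^ (1 - 2 * δ) = ((H : ℝ) ^ (-1 + 2 * δ))⁻¹ := by
      rw [← Real.rpow_neg hH0.le]
      congr 1
      ring
    rw [h2]
    have h3 : (0 : ℝ) < (H : ℝ) ^ (-1 + 2 * δ) := by positivity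
    have h4 : ((⌊(H : ℝ) ^ k⌋₊ : ℕ) : ℝ) ≤ (H : ℝ) ^ k := Nat.floor_le (by positivity)
    calc ((⌊(H : ℝ) ^ k⌋₊ : ℕ) : ℝ) ^ 2 / (4 * (S * (H : ℝ) ^ (-1 + 2 * δ))) ≤
        ((H : ℝ) ^ k) ^ 2 / (4 * (S * (H : ℝ) ^ (-1 + 2 * δ))) := by
          apply div_le_div_of_nonneg_right _ (by positivity)
          exact pow_le_pow_left₀ (Nat.cast_nonneg _) h4 2
      _ = _ := by field_simp
  have hXτ := hX.rpow (fun H => by positivity) (2 * τ) (by positivity)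
  have ht1 : PB (fun H => 128 * (S * (H : ℝ) ^ (-1 + 2 * δ)) * (2 * (H : ℝ) + 1) ^ (n + 1))
      ((-1 + 2 * δ) + ((n + 1 : ℕ) : ℝ) * 1) :=
    (hU.const_mul (fun H => by positivity) 128).mul hA (fun H => by positivity)
  have ht2 : PB (fun H => 16 * D * (2 ^ (n + 1) * (2 ^ (n + 2) / c)) *
      ((((Nat.log 2 (2 * H + 1) : ℕ) : ℝ) + 2) ^ (n + 1)) * ((⌊(H : ℝ) ^ k⌋₊ : ℕ) : ℝ) *
      ((((⌊(H : ℝ) ^ k⌋₊ : ℕ) : ℝ) ^ 2 / (4 * (S * (H : ℝ) ^ (-1 + 2 * δ))))) ^ (2 * τ))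
      ((((n + 1 : ℕ) : ℝ) * (s / (n + 1)) + k) + 2 * τ * (2 * k + 1)) :=
    (((hJ.const_mul (fun H => by positivity) _).mul hZ (fun H => by positivity)).mul hXτ
      (fun H => by positivity))
  have hn1 : ((n + 1 : ℕ) : ℝ) * (s / (n + 1)) = s := by
    push_cast
    field_simp
  rw [hn1, hτk] at ht2
  set e0 : ℝ := max ((n : ℝ) + 1 - 3 / 4) ((n : ℝ) + 1 - γ / 2) with he0
  have hn0 : (0 : ℝ) ≤ n := Nat.cast_nonneg n
  have ht1' := ht1.mono_exp (e' := e0) (by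
    refine le_trans ?_ (le_max_left _ _)
    push_cast
    linarith)
  have ht2' := ht2.mono_exp (e' := e0) (by
    refine le_trans ?_ (le_max_right _ _)
    rw [hk]
    linarith)
  have hsum := hlog.mul (ht1'.add ht2') (fun H => by positivity)
  refine ⟨s + e0, ?_, hsum.mono ?_⟩
  · rw [he0]
    rcases max_cases ((n : ℝ) + 1 - 3 / 4) ((n : ℝ) + 1 - γ / 2) with h | h
    · rw [h.1]; linarith
    · rw [h.1]; linarith
  · have hsmall := hU.eventually_le (e' := 0) (by linarith) (1 / 8) (by norm_num)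
    filter_upwards [hsmall, eventually_ge_atTop 1] with H h1 h2
    have hH0 : (0 : ℝ) < H := by exact_mod_cast (by omega : 0 < H)
    rw [Real.rpow_zero, mul_one] at h1
    have h3 := exc_le ω hli τ c D hτ0 hc hSc hD0 hD (S * (H : ℝ) ^ (-1 + 2 * δ)) (by positivity)
      (by linarith) ⌊(H : ℝ) ^ k⌋₊ H (Nat.log 2 (2 * H + 1) + 1) (by
        have := Nat.lt_pow_succ_log_self (b := 2) (by norm_num) (2 * H + 1)
        exact_mod_cast this.le)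
    refine h3.trans (le_of_eq ?_)
    push_cast
    ring

lemma exc_PB_one (ω : Fin 1 → ℝ) (halg : ∀ i, IsAlgebraic ℚ (ω i)) (hli : Ind ω)
    (κ : ℝ) (hκ1 : 1 ≤ κ) (S : ℝ) (hS0 : 0 < S) :
    ∃ δ : ℝ, 0 < δ ∧ δ < 1 / 2 ∧ ∃ e : ℝ, e < 1 ∧
      PB (fun H => ((Exc ω H ⌊(H : ℝ) ^ (κ - 1 + δ)⌋₊ (S * (H : ℝ) ^ (-1 + 2 * δ))).card : ℝ)) e := by
  refine ⟨1 / 8, by norm_num, by norm_num, ?_⟩
  set k : ℝ := κ - 1 + 1 / 8 with hk
  have hk0 : 0 < k := by rw [hk]; linarith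
  set τ : ℝ := 1 / (16 * (k + 1)) with hτ
  have hτ0 : 0 < τ := by positivity
  have hτk : τ * (k + 1) = 1 / 16 := by
    rw [hτ]
    field_simp
  obtain ⟨c, hc, hSc⟩ := schmidt ω halg hli τ hτ0
  obtain ⟨D, hD0, hD⟩ := Pool.Agent.H510R2.divisor_bound τ hτ0
  have hZ : PB (fun H => ((⌊(H : ℝ) ^ k⌋₊ : ℕ) : ℝ)) k := PB_floor k
  have hZH : PB (fun H => ((⌊(H : ℝ) ^ k⌋₊ * H : ℕ) : ℝ)) (k + 1) := by
    refine (hZ.mul PB.id (fun H => by positivity)).mono (Filter.Eventually.of_forall fun H => ?_)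
    push_cast
    exact le_rfl
  have hU : PB (fun H => S * (H : ℝ) ^ (-1 + 2 * (1 / 8 : ℝ))) (-1 + 2 * (1 / 8)) :=
    (PB.self _).const_mul (fun H => by positivity) S
  have h1 : PB (fun H => 2 * (D * ((⌊(H : ℝ) ^ k⌋₊ * H : ℕ) : ℝ) ^ τ)) (1 / 16) := by
    have := ((hZH.rpow (fun H => by positivity) τ hτ0.le).const_mul (fun H => by positivity) D).const_mul
      (fun H => by positivity) 2
    rwa [hτk] at this
  have h2 : PB (fun H => ((Nat.log 2 (⌊(H : ℝ) ^ k⌋₊ * H) : ℕ) : ℝ) + 2) (1 / 16) :=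
    hZH.log (by positivity) _ (by norm_num)
  have h3 : PB (fun H => (2 * ((⌊(H : ℝ) ^ k⌋₊ * H : ℕ) : ℝ)) ^ τ) (1 / 16) := by
    have := (hZH.const_mul (fun H => by positivity) 2).rpow (fun H => by positivity) τ hτ0.le
    rwa [hτk] at this
  have h4 : PB (fun H => 8 / c * (S * (H : ℝ) ^ (-1 + 2 * (1 / 8 : ℝ)) * H))
      ((-1 + 2 * (1 / 8)) + 1) :=
    (hU.mul PB.id (fun H => by positivity)).const_mul (fun H => by positivity) _
  have h5 := h1.mul (h2.mul (h4.mul h3 (fun H => by positivity)) (fun H => by positivity))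
    (fun H => by positivity)
  refine ⟨_, ?_, h5.mono ?_⟩
  · norm_num
  · filter_upwards [eventually_ge_atTop 1] with H hH
    have hH0 : (0 : ℝ) < H := by exact_mod_cast (by omega : 0 < H)
    exact exc_one ω τ c D hτ0 hc hSc hD0 hD (S * (H : ℝ) ^ (-1 + 2 * (1 / 8 : ℝ))) (by positivity)
      ⌊(H : ℝ) ^ k⌋₊ H hH

/-- **The exceptional linear forms** -/
theorem exc_PB {n : ℕ} (ω : Fin (n + 1) → ℝ) (halg : ∀ i, IsAlgebraic ℚ (ω i)) (hli : Ind ω)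
    (κ : ℝ) (hκ1 : 1 ≤ κ) (hκ : n = 0 ∨ κ < n + 2) (S : ℝ) (hS0 : 0 < S) :
    ∃ δ : ℝ, 0 < δ ∧ δ < 1 / 2 ∧ ∃ e : ℝ, e < n + 1 ∧
      PB (fun H => ((Exc ω H ⌊(H : ℝ) ^ (κ - 1 + δ)⌋₊ (S * (H : ℝ) ^ (-1 + 2 * δ))).card : ℝ)) e := by
  rcases hκ with h | h
  · subst h
    obtain ⟨δ, h1, h2, e, h3, h4⟩ := exc_PB_one ω halg hli κ hκ1 S hS0
    exact ⟨δ, h1, h2, e, by push_cast; linarith, h4⟩
  · exact exc_PB_many ω halg hli κ hκ1 h S hS0

end Pool.Agent.NH20.NF
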