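import Mathlib
import Pool.Agent.NH20.NF.Cnt

/-!
# The pairs `(x_0, y)` for which `(x_0 + β) / y` has a good rational approximation
-/

set_option autoImplicit false

open Finset Filter Topology

namespace Pool.Agent.NH20.NF

lemma sum_gcd (D Y : ℕ) (hD : 1 ≤ D) : ∑ y ∈ Ioc 0 Y, Nat.gcd D y ≤ Y * D.divisors.card := by
  classical
  have h1 : ∀ y ∈ Ioc 0 Y, Nat.gcd D y ≤ ∑ g ∈ D.divisors, if g ∣ y then g else 0 := by
    intro y _
    have h2 : Nat.gcd D y ∈ D.divisors :=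
      Nat.mem_divisors.2 ⟨Nat.gcd_dvd_left _ _, by omega⟩
    refine le_trans (le_of_eq ?_) (Finset.single_le_sum
      (f := fun g => if g ∣ y then g else 0) (fun _ _ => Nat.zero_le _) h2)
    rw [if_pos (Nat.gcd_dvd_right _ _)]
  refine (Finset.sum_le_sum h1).trans ?_
  rw [Finset.sum_comm]
  have h2 : ∀ g ∈ D.divisors, ∑ y ∈ Ioc 0 Y, (if g ∣ y then g else 0) ≤ Y := by
    intro g _
    rw [← Finset.sum_filter, Finset.sum_const, Nat.Ioc_filter_dvd_card_eq_div, smul_eq_mul]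
    exact Nat.div_mul_le_self Y g
  refine (Finset.sum_le_sum h2).trans (le_of_eq ?_)
  rw [Finset.sum_const, smul_eq_mul, mul_comm]

/-- the `x` with `y ∣ D (q x + m)` -/
lemma count_x (H D q y : ℕ) (m : ℤ) (hH : 1 ≤ H) (hD : 1 ≤ D) (hy : 1 ≤ y) (hyH : y ≤ H)
    (hqm : IsCoprime (q : ℤ) m) :
    (((Icc (-(H : ℤ)) H).filter (fun x : ℤ => (y : ℤ) ∣ D * (q * x + m))).card : ℝ) ≤
      3 * H * Nat.gcd D y / y := by
  classical
  have hH0 : (0 : ℝ) < H := by exact_mod_cast (by omega : 0 < H)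
  have hy0 : (0 : ℝ) < y := by exact_mod_cast (by omega : 0 < y)
  set g := Nat.gcd D y with hg
  have hg1 : 1 ≤ g := Nat.gcd_pos_of_pos_left _ (by omega)
  have hg0 : (0 : ℝ) < g := by exact_mod_cast (by omega : 0 < g)
  obtain ⟨D', hD'⟩ := Nat.gcd_dvd_left D y
  obtain ⟨y', hy'⟩ := Nat.gcd_dvd_right D y
  rw [← hg] at hD' hy'
  have hcop : Nat.Coprime y' D' := by
    have h1 := Nat.gcd_mul_left g D' y'
    rw [← hD', ← hy'] at h1
    have h2 : g * 1 = g * Nat.gcd D' y' := by rw [mul_one, ← h1]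
    have h3 := Nat.eq_of_mul_eq_mul_left (by omega) h2
    exact (Nat.Coprime.symm h3.symm)
  have hcopZ : IsCoprime (y' : ℤ) (D' : ℤ) := Nat.isCoprime_iff_coprime.2 hcop
  have key : ∀ z : ℤ, (y : ℤ) ∣ D * z → (y' : ℤ) ∣ z := by
    intro z hz
    rw [hD', hy'] at hz
    push_cast at hz
    rw [mul_assoc] at hz
    have h1 : (y' : ℤ) ∣ D' * z :=
      Int.dvd_of_mul_dvd_mul_left (by exact_mod_cast (by omega : g ≠ 0)) hz
    exact hcopZ.dvd_of_dvd_mul_left h1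
  have hsp := spacing ((Icc (-(H : ℤ)) H).filter (fun x : ℤ => (y : ℤ) ∣ D * (q * x + m)))
    (fun x : ℤ => (x : ℝ)) (-(H : ℝ)) H ((y : ℝ) / g) (by positivity)
    (by
      intro x hx
      rw [Finset.mem_filter, Finset.mem_Icc] at hx
      exact ⟨by exact_mod_cast hx.1.1, by exact_mod_cast hx.1.2⟩)
    (by
      intro x hx x' hx' hne
      rw [Finset.mem_filter] at hx hx'
      have h1 := key _ hx.2
      have h2 := key _ hx'.2
      have h3 : (y' : ℤ) ∣ q * (x - x') := by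
        have := dvd_sub h1 h2
        have e : (q : ℤ) * x + m - (q * x' + m) = q * (x - x') := by ring
        rwa [e] at this
      have h4 : IsCoprime (y' : ℤ) (q : ℤ) := by
        obtain ⟨k, hk⟩ := h1
        obtain ⟨u, v, huv⟩ := hqm
        refine ⟨v * k, u - v * x, ?_⟩
        have : m = y' * k - q * x := by linarith
        rw [this] at huv
        linear_combination huv
      have h5 : (y' : ℤ) ∣ x - x' := h4.dvd_of_dvd_mul_left h3
      have h6 : (y' : ℤ) ≤ |x - x'| :=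
        Int.le_of_dvd (abs_pos.2 (sub_ne_zero.2 hne)) ((dvd_abs _ _).2 h5)
      have h7 : (y' : ℝ) ≤ |(x : ℝ) - x'| := by exact_mod_cast h6
      have h8 : (y : ℝ) / g = y' := by
        rw [hy']
        push_cast
        field_simp
      rw [h8]
      exact h7)
    (by linarith)
  refine hsp.trans ?_
  have h1 : (1 : ℝ) ≤ H * g / y := by
    rw [le_div_iff₀ hy0, one_mul]
    have h2 : (y : ℝ) ≤ H := by exact_mod_cast hyH
    have h3 : (1 : ℝ) ≤ g := by exact_mod_cast hg1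
    nlinarith
  have h2 : ((H : ℝ) - -(H : ℝ)) / ((y : ℝ) / g) = 2 * (H * g / y) := by
    field_simp
    ring
  rw [h2]
  have h3 : 3 * (H : ℝ) * g / y = 3 * (H * g / y) := by ring
  rw [h3]
  linarith

/-- the pairs `(x, y)` with `y ∣ D (q x + m)` and `y` in a dyadic interval -/
lemma count_xy (H D q j : ℕ) (m : ℤ) (hH : 1 ≤ H) (hD : 1 ≤ D) (hqm : IsCoprime (q : ℤ) m) :
    (((Icc (-(H : ℤ)) H ×ˢ Icc 1 H).filter (fun a : ℤ × ℕ => 2 ^ j ≤ a.2 ∧ a.2 < 2 ^ (j + 1) ∧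
      (a.2 : ℤ) ∣ D * (q * a.1 + m))).card : ℝ) ≤ 6 * H * D.divisors.card := by
  classical
  have hH0 : (0 : ℝ) < H := by exact_mod_cast (by omega : 0 < H)
  have h1 : ((Icc (-(H : ℤ)) H ×ˢ Icc 1 H).filter (fun a : ℤ × ℕ => 2 ^ j ≤ a.2 ∧ a.2 < 2 ^ (j + 1) ∧
      (a.2 : ℤ) ∣ D * (q * a.1 + m))) ⊆
      ((Icc 1 H).filter (fun y => 2 ^ j ≤ y ∧ y < 2 ^ (j + 1))).biUnion fun y =>
        ((Icc (-(H : ℤ)) H).filter (fun x : ℤ => (y : ℤ) ∣ D * (q * x + m))).image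
          (fun x => (x, y)) := by
    rintro ⟨x, y⟩ ha
    rw [Finset.mem_filter, Finset.mem_product] at ha
    simp only at ha
    rw [Finset.mem_biUnion]
    refine ⟨y, Finset.mem_filter.2 ⟨ha.1.2, ha.2.1, ha.2.2.1⟩, ?_⟩
    rw [Finset.mem_image]
    exact ⟨x, Finset.mem_filter.2 ⟨ha.1.1, ha.2.2.2⟩, rfl⟩
  have h2 := (Finset.card_le_card h1).trans Finset.card_biUnion_le
  have h3 : (((Icc (-(H : ℤ)) H ×ˢ Icc 1 H).filter (fun a : ℤ × ℕ => 2 ^ j ≤ a.2 ∧
      a.2 < 2 ^ (j + 1) ∧ (a.2 : ℤ) ∣ D * (q * a.1 + m))).card : ℝ) ≤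
      ∑ y ∈ (Icc 1 H).filter (fun y => 2 ^ j ≤ y ∧ y < 2 ^ (j + 1)),
        3 * (H : ℝ) / 2 ^ j * Nat.gcd D y := by
    refine le_trans (Nat.cast_le.2 h2) ?_
    push_cast
    refine Finset.sum_le_sum fun y hy => ?_
    rw [Finset.mem_filter, Finset.mem_Icc] at hy
    refine le_trans (Nat.cast_le.2 Finset.card_image_le) ?_
    refine (count_x H D q y m hH hD hy.1.1 hy.1.2 hqm).trans ?_
    have h4 : (2 : ℝ) ^ j ≤ y := by exact_mod_cast hy.2.1
    have h5 : (0 : ℝ) < 2 ^ j := by positivity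
    calc 3 * (H : ℝ) * Nat.gcd D y / y ≤ 3 * (H : ℝ) * Nat.gcd D y / 2 ^ j := by
          apply div_le_div_of_nonneg_left (by positivity) h5 h4
      _ = _ := by ring
  refine h3.trans ?_
  rw [← Finset.mul_sum]
  have h4 : ∑ y ∈ (Icc 1 H).filter (fun y => 2 ^ j ≤ y ∧ y < 2 ^ (j + 1)), (Nat.gcd D y : ℝ) ≤
      2 ^ (j + 1) * D.divisors.card := by
    have h5 : ∑ y ∈ (Icc 1 H).filter (fun y => 2 ^ j ≤ y ∧ y < 2 ^ (j + 1)), Nat.gcd D y ≤
        ∑ y ∈ Ioc 0 (2 ^ (j + 1)), Nat.gcd D y := by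
      apply Finset.sum_le_sum_of_subset
      intro y hy
      rw [Finset.mem_filter, Finset.mem_Icc] at hy
      rw [Finset.mem_Ioc]
      omega
    have h6 := h5.trans (sum_gcd D (2 ^ (j + 1)) hD)
    exact_mod_cast h6
  have h5 : (0 : ℝ) ≤ 3 * H / 2 ^ j := by positivity
  calc 3 * (H : ℝ) / 2 ^ j * ∑ y ∈ (Icc 1 H).filter (fun y => 2 ^ j ≤ y ∧ y < 2 ^ (j + 1)),
        (Nat.gcd D y : ℝ) ≤ 3 * (H : ℝ) / 2 ^ j * (2 ^ (j + 1) * D.divisors.card) :=
        mul_le_mul_of_nonneg_left h4 h5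
    _ = 6 * H * D.divisors.card := by
        rw [pow_succ]
        field_simp
        ring

/-- the reduced fractions near `β` -/
lemma count_R (β : ℝ) (c : ℝ) (hc : 0 ≤ c) (i D : ℕ) (hD : 1 ≤ D) (R : Finset (ℕ × ℤ))
    (hR : ∀ a ∈ R, 1 ≤ a.1 ∧ IsCoprime (a.1 : ℤ) a.2 ∧ 2 ^ i ≤ D * a.1 ∧ D * a.1 < 2 ^ (i + 1) ∧
      |a.1 * β - a.2| ≤ c / D) :
    (R.card : ℝ) ≤ 8 * c * 2 ^ i / D ^ 2 + 1 := by
  classical
  have hD0 : (0 : ℝ) < D := by exact_mod_cast (by omega : 0 < D)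
  have h2i : (0 : ℝ) < 2 ^ i := by positivity
  have hsp := spacing R (fun a : ℕ × ℤ => (a.2 : ℝ) / a.1) (β - c / 2 ^ i) (β + c / 2 ^ i)
    ((D / 2 ^ (i + 1)) ^ 2) (by positivity)
    (by
      intro a ha
      obtain ⟨h1, h2, h3, h4, h5⟩ := hR a ha
      have ha0 : (0 : ℝ) < a.1 := by exact_mod_cast (by omega : 0 < a.1)
      have h6 : |β - (a.2 : ℝ) / a.1| ≤ c / 2 ^ i := by
        have h7 : β - (a.2 : ℝ) / a.1 = (a.1 * β - a.2) / a.1 := by field_simp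
        rw [h7, abs_div, abs_of_pos ha0, div_le_iff₀ ha0]
        refine h5.trans ?_
        have h8 : (2 : ℝ) ^ i ≤ D * a.1 := by exact_mod_cast h3
        rw [div_le_iff₀ hD0, div_mul_eq_mul_div, div_mul_eq_mul_div, le_div_iff₀ h2i]
        nlinarith
      have h7 := abs_le.1 h6
      constructor <;> linarith [h7.1, h7.2])
    (by
      intro a ha b hb hne
      obtain ⟨h1, h2, h3, h4, h5⟩ := hR a ha
      obtain ⟨h1', h2', h3', h4', h5'⟩ := hR b hb
      have ha0 : (0 : ℝ) < a.1 := by exact_mod_cast (by omega : 0 < a.1)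
      have hb0 : (0 : ℝ) < b.1 := by exact_mod_cast (by omega : 0 < b.1)
      have hne' : a.2 * b.1 - b.2 * a.1 ≠ 0 := by
        intro h0
        have h6 : a.2 * (b.1 : ℤ) = b.2 * a.1 := by linarith
        have h7 : (a.1 : ℤ) ∣ b.1 := by
          have : (a.1 : ℤ) ∣ a.2 * b.1 := ⟨b.2, by linarith⟩
          exact h2.dvd_of_dvd_mul_left this
        have h8 : (b.1 : ℤ) ∣ a.1 := by
          have : (b.1 : ℤ) ∣ b.2 * a.1 := ⟨a.2, by linarith⟩
          exact h2'.dvd_of_dvd_mul_left this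
        have h9 : a.1 = b.1 := Nat.dvd_antisymm (by exact_mod_cast h7) (by exact_mod_cast h8)
        apply hne
        refine Prod.ext h9 ?_
        rw [h9] at h6
        have hb1 : (b.1 : ℤ) ≠ 0 := by exact_mod_cast (by omega : b.1 ≠ 0)
        exact mul_right_cancel₀ hb1 h6
      have h6 : (1 : ℝ) ≤ |(a.2 : ℝ) * b.1 - b.2 * a.1| := by
        exact_mod_cast Int.one_le_abs hne'
      have h7 : (a.2 : ℝ) / a.1 - (b.2 : ℝ) / b.1 = (a.2 * b.1 - b.2 * a.1) / (a.1 * b.1) := by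
        field_simp
      rw [h7, abs_div, abs_of_pos (mul_pos ha0 hb0), le_div_iff₀ (mul_pos ha0 hb0)]
      refine le_trans ?_ h6
      have h8 : (D : ℝ) * a.1 ≤ 2 ^ (i + 1) := by exact_mod_cast h4.le
      have h9 : (D : ℝ) * b.1 ≤ 2 ^ (i + 1) := by exact_mod_cast h4'.le
      have h10 : (0 : ℝ) < 2 ^ (i + 1) := by positivity
      have h11 : ((D : ℝ) * a.1) * (D * b.1) ≤ 2 ^ (i + 1) * 2 ^ (i + 1) :=
        mul_le_mul h8 h9 (by positivity) h10.le
      calc ((D : ℝ) / 2 ^ (i + 1)) ^ 2 * (a.1 * b.1) =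
          (((D : ℝ) * a.1) * (D * b.1)) / (2 ^ (i + 1) * 2 ^ (i + 1)) := by
            field_simp
        _ ≤ 1 := by
            rw [div_le_one (by positivity)]
            exact h11)
    (by
      have : 0 ≤ c / 2 ^ i := by positivity
      linarith)
  refine hsp.trans (le_of_eq ?_)
  rw [pow_succ]
  field_simp
  ring

open Classical in
/-- **The pairs `(x_0, y)`** -/
theorem main_count (β : ℝ) (ψ : ℕ → ℝ) (hanti : Antitone ψ) (h0 : ∀ q, 0 ≤ ψ q) (c : ℝ)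
    (hc : 0 ≤ c) (H T E : ℕ) (hH : 1 ≤ H)
    (hexc : ∀ D q : ℕ, E < D → 1 ≤ q → D * q ≤ T → ∀ m : ℤ, c * H * ψ (D * q) / D < |q * β - m|) :
    (((Icc (-(H : ℤ)) H ×ˢ Icc 1 H).filter (fun a : ℤ × ℕ => ∃ q : ℕ, 1 ≤ q ∧ q ≤ T ∧ ∃ p : ℤ,
      |q * ((a.1 + β) / a.2) - p| ≤ c * ψ q)).card : ℝ) ≤
      ∑ j ∈ range (Nat.log 2 H + 1), ∑ i ∈ range (Nat.log 2 T + 1), ∑ D ∈ Icc 1 E,
        (16 * c * 2 ^ j * ψ (2 ^ i) * 2 ^ i / D ^ 2 + 1) * (6 * H * D.divisors.card) := by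
  classical
  have hH0 : (0 : ℝ) < H := by exact_mod_cast (by omega : 0 < H)
  -- the finite sets of reduced fractions
  let Mb : ℕ → ℕ → ℤ := fun j i => ⌈2 ^ (i + 1) * |β| + c * 2 ^ (j + 1) * ψ (2 ^ i)⌉
  let R : ℕ → ℕ → ℕ → Finset (ℕ × ℤ) := fun j i D =>
    (Icc 1 (2 ^ (i + 1)) ×ˢ Icc (-(Mb j i)) (Mb j i)).filter (fun a : ℕ × ℤ =>
      1 ≤ a.1 ∧ IsCoprime (a.1 : ℤ) a.2 ∧ 2 ^ i ≤ D * a.1 ∧ D * a.1 < 2 ^ (i + 1) ∧
      |a.1 * β - a.2| ≤ (c * 2 ^ (j + 1) * ψ (2 ^ i)) / D)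
  let W : ℕ → ℕ → ℕ × ℤ → Finset (ℤ × ℕ) := fun j D b =>
    (Icc (-(H : ℤ)) H ×ˢ Icc 1 H).filter (fun a : ℤ × ℕ => 2 ^ j ≤ a.2 ∧ a.2 < 2 ^ (j + 1) ∧
      (a.2 : ℤ) ∣ D * (b.1 * a.1 + b.2))
  have hsub : (Icc (-(H : ℤ)) H ×ˢ Icc 1 H).filter (fun a : ℤ × ℕ => ∃ q : ℕ, 1 ≤ q ∧ q ≤ T ∧
      ∃ p : ℤ, |q * ((a.1 + β) / a.2) - p| ≤ c * ψ q) ⊆
      (range (Nat.log 2 H + 1)).biUnion fun j => (range (Nat.log 2 T + 1)).biUnion fun i =>
        (Icc 1 E).biUnion fun D => (R j i D).biUnion fun b => W j D b := by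
    rintro ⟨x, y⟩ ha
    rw [Finset.mem_filter] at ha
    obtain ⟨hxy, q, hq1, hqT, p, hp⟩ := ha
    have hxy' := Finset.mem_product.1 hxy
    rw [Finset.mem_Icc, Finset.mem_Icc] at hxy'
    simp only at hp hxy'
    have hy1 : 1 ≤ y := hxy'.2.1
    have hyH : y ≤ H := hxy'.2.2
    have hy0 : (0 : ℝ) < y := by exact_mod_cast (by omega : 0 < y)
    -- the integer m
    set m : ℤ := y * p - q * x with hm
    have hqm : |q * β - m| ≤ y * (c * ψ q) := by
      have h1 : (q : ℝ) * β - (m : ℝ) = y * (q * ((x + β) / y) - p) := by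
        rw [hm]
        push_cast
        field_simp
        ring
      rw [h1, abs_mul, abs_of_pos hy0]
      exact mul_le_mul_of_nonneg_left hp hy0.le
    set D : ℕ := Int.gcd q m with hDd
    have hD1 : 1 ≤ D := by
      have : 0 < Int.gcd (q : ℤ) m := Int.gcd_pos_of_ne_zero_left _ (by exact_mod_cast (by omega : q ≠ 0))
      omega
    have hD0 : (0 : ℝ) < D := by exact_mod_cast (by omega : 0 < D)
    obtain ⟨q', hq'⟩ := Int.gcd_dvd_left (q : ℤ) m
    obtain ⟨m', hm'⟩ := Int.gcd_dvd_right (q : ℤ) m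
    rw [← hDd] at hq' hm'
    have hq'0 : 0 < q' := by
      have h1 : (0 : ℤ) < D * q' := by rw [← hq']; exact_mod_cast (by omega : 0 < q)
      exact (pos_iff_pos_of_mul_pos h1).1 (by exact_mod_cast (by omega : 0 < D))
    obtain ⟨r, hr⟩ := Int.eq_ofNat_of_zero_le hq'0.le
    subst hr
    have hqr : q = D * r := by exact_mod_cast hq'
    have hr1 : 1 ≤ r := by
      have : (0 : ℤ) < r := hq'0
      omega
    have hcop : IsCoprime (r : ℤ) m' := by
      have h1 := Int.gcd_eq_gcd_ab (q : ℤ) m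
      rw [← hDd] at h1
      refine ⟨Int.gcdA q m, Int.gcdB q m, ?_⟩
      have h2 : (D : ℤ) * (Int.gcdA q m * r + Int.gcdB q m * m') = D * 1 := by
        rw [mul_one]
        conv_rhs => rw [h1]
        conv_rhs => rw [show (q : ℤ) * Int.gcdA q m + m * Int.gcdB q m =
          (D * r) * Int.gcdA q m + (D * m') * Int.gcdB q m by rw [← hq', ← hm']]
        ring
      exact mul_left_cancel₀ (by exact_mod_cast (by omega : D ≠ 0)) h2
    have hrm : |(r : ℝ) * β - m'| ≤ y * (c * ψ q) / D := by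
      rw [le_div_iff₀ hD0]
      calc |(r : ℝ) * β - m'| * D = |(q : ℝ) * β - m| := by
            rw [hqr, hm']
            push_cast
            have : (D : ℝ) * r * β - D * m' = (r * β - m') * D := by ring
            rw [this, abs_mul, abs_of_pos hD0]
        _ ≤ _ := hqm
    have hDE : D ≤ E := by
      by_contra hcon
      push Not at hcon
      have h1 := hexc D r hcon hr1 (by rw [← hqr]; exact hqT) m'
      rw [← hqr] at h1
      have h2 : (y : ℝ) * (c * ψ q) / D ≤ c * H * ψ q / D := by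
        apply div_le_div_of_nonneg_right _ hD0.le
        have h3 : (y : ℝ) ≤ H := by exact_mod_cast hyH
        have h4 : 0 ≤ c * ψ q := mul_nonneg hc (h0 q)
        nlinarith
      linarith
    have hq0 : q ≠ 0 := by omega
    have hiq : 2 ^ (Nat.log 2 q) ≤ q := Nat.pow_log_le_self 2 hq0
    have hiq2 : q < 2 ^ (Nat.log 2 q + 1) := Nat.lt_pow_succ_log_self (by norm_num) q
    have hjy : 2 ^ (Nat.log 2 y) ≤ y := Nat.pow_log_le_self 2 (by omega)
    have hjy2 : y < 2 ^ (Nat.log 2 y + 1) := Nat.lt_pow_succ_log_self (by norm_num) y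
    have hψ : ψ q ≤ ψ (2 ^ Nat.log 2 q) := hanti hiq
    have hrm2 : |(r : ℝ) * β - m'| ≤ (c * 2 ^ (Nat.log 2 y + 1) * ψ (2 ^ Nat.log 2 q)) / D := by
      refine hrm.trans (div_le_div_of_nonneg_right ?_ hD0.le)
      have h1 : (y : ℝ) ≤ 2 ^ (Nat.log 2 y + 1) := by exact_mod_cast hjy2.le
      calc (y : ℝ) * (c * ψ q) ≤ 2 ^ (Nat.log 2 y + 1) * (c * ψ (2 ^ Nat.log 2 q)) :=
            mul_le_mul h1 (mul_le_mul_of_nonneg_left hψ hc) (mul_nonneg hc (h0 q)) (by positivity)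
        _ = _ := by ring
    rw [Finset.mem_biUnion]
    refine ⟨Nat.log 2 y, Finset.mem_range.2 (Nat.lt_succ_of_le (Nat.log_mono_right hyH)), ?_⟩
    rw [Finset.mem_biUnion]
    refine ⟨Nat.log 2 q, Finset.mem_range.2 (Nat.lt_succ_of_le (Nat.log_mono_right hqT)), ?_⟩
    rw [Finset.mem_biUnion]
    refine ⟨D, Finset.mem_Icc.2 ⟨hD1, hDE⟩, ?_⟩
    rw [Finset.mem_biUnion]
    refine ⟨(r, m'), ?_, ?_⟩
    · simp only [R]
      rw [Finset.mem_filter, Finset.mem_product, Finset.mem_Icc, Finset.mem_Icc]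
      have hrq : r ≤ q := by rw [hqr]; exact Nat.le_mul_of_pos_left r (by omega)
      have hm'b : |m'| ≤ Mb (Nat.log 2 y) (Nat.log 2 q) := by
        have h1 : |(m' : ℝ)| ≤ 2 ^ (Nat.log 2 q + 1) * |β| +
            c * 2 ^ (Nat.log 2 y + 1) * ψ (2 ^ Nat.log 2 q) := by
          have h2 : |(m' : ℝ)| ≤ |(r : ℝ) * β| + |(r : ℝ) * β - m'| := by
            have := abs_sub_abs_le_abs_sub ((m' : ℝ)) ((r : ℝ) * β)
            rw [abs_sub_comm] at this
            linarith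
          have h3 : |(r : ℝ) * β| ≤ 2 ^ (Nat.log 2 q + 1) * |β| := by
            rw [abs_mul, abs_of_nonneg (Nat.cast_nonneg r : (0 : ℝ) ≤ (r : ℝ))]
            apply mul_le_mul_of_nonneg_right _ (abs_nonneg _)
            exact_mod_cast (hrq.trans hiq2.le)
          have h4 : (c * 2 ^ (Nat.log 2 y + 1) * ψ (2 ^ Nat.log 2 q)) / D ≤
              c * 2 ^ (Nat.log 2 y + 1) * ψ (2 ^ Nat.log 2 q) := by
            apply div_le_self
            · exact mul_nonneg (mul_nonneg hc (by positivity)) (h0 _)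
            · exact_mod_cast hD1
          linarith
        have h2 : ((|m'| : ℤ) : ℝ) ≤ ((Mb (Nat.log 2 y) (Nat.log 2 q) : ℤ) : ℝ) := by
          rw [Int.cast_abs]
          exact h1.trans (Int.le_ceil _)
        exact Int.cast_le.1 h2
      refine ⟨⟨⟨hr1, hrq.trans hiq2.le⟩, (abs_le.1 hm'b).1, (abs_le.1 hm'b).2⟩, hr1, hcop, ?_, ?_, hrm2⟩
      · rw [← hqr]; exact hiq
      · rw [← hqr]; exact hiq2
    · simp only [W]
      rw [Finset.mem_filter]
      refine ⟨hxy, hjy, hjy2, ?_⟩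
      refine ⟨p, ?_⟩
      have h1 : (D : ℤ) * (r * x + m') = q * x + m := by
        rw [hq', hm']
        ring
      rw [h1, hm]
      ring
  have hcard := (Finset.card_le_card hsub).trans Finset.card_biUnion_le
  refine le_trans (Nat.cast_le.2 hcard) ?_
  push_cast
  refine Finset.sum_le_sum fun j _ => ?_
  refine le_trans (Nat.cast_le.2 Finset.card_biUnion_le) ?_
  push_cast
  refine Finset.sum_le_sum fun i _ => ?_
  refine le_trans (Nat.cast_le.2 Finset.card_biUnion_le) ?_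
  push_cast
  refine Finset.sum_le_sum fun D hD => ?_
  rw [Finset.mem_Icc] at hD
  have hW : ∀ b ∈ R j i D, ((W j D b).card : ℝ) ≤ 6 * H * D.divisors.card := by
    intro b hb
    have hb' := (Finset.mem_filter.1 hb).2
    exact count_xy H D b.1 j b.2 hH hD.1 hb'.2.1
  have hRc : ((R j i D).card : ℝ) ≤ 8 * (c * 2 ^ (j + 1) * ψ (2 ^ i)) * 2 ^ i / D ^ 2 + 1 := by
    apply count_R β (c * 2 ^ (j + 1) * ψ (2 ^ i))
      (mul_nonneg (mul_nonneg hc (by positivity)) (h0 _)) i D hD.1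
    intro a ha
    exact (Finset.mem_filter.1 ha).2
  have hpos : (0 : ℝ) ≤ 6 * H * D.divisors.card := by positivity
  calc (((R j i D).biUnion fun b => W j D b).card : ℝ) ≤ ((∑ b ∈ R j i D, (W j D b).card : ℕ) : ℝ) :=
        Nat.cast_le.2 Finset.card_biUnion_le
    _ = ∑ b ∈ R j i D, ((W j D b).card : ℝ) := by push_cast; rfl
    _ ≤ ∑ b ∈ R j i D, (6 * (H : ℝ) * D.divisors.card) := Finset.sum_le_sum hW
    _ = (R j i D).card * (6 * (H : ℝ) * D.divisors.card) := by rw [Finset.sum_const, nsmul_eq_mul]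
    _ ≤ (8 * (c * 2 ^ (j + 1) * ψ (2 ^ i)) * 2 ^ i / D ^ 2 + 1) * (6 * H * D.divisors.card) :=
        mul_le_mul_of_nonneg_right hRc hpos
    _ = _ := by rw [pow_succ]; ring

end Pool.Agent.NH20.NF
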