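import Mathlib
import Pool.Agent.NH20.NF.ExcPB
import Pool.Agent.NH20.NF.Main

/-!
# The number of bad vectors
-/

set_option autoImplicit false

open Finset Filter Topology

namespace Pool.Agent.NH20.NF

open Classical in
/-- the bad pairs `(x_0, y)` for the number `β` -/
noncomputable def BP (β : ℝ) (ψ : ℕ → ℝ) (c : ℝ) (H T : ℕ) : Finset (ℤ × ℕ) :=
  (Icc (-(H : ℤ)) H ×ˢ Icc 1 H).filter (fun a : ℤ × ℕ => ∃ q : ℕ, 1 ≤ q ∧ q ≤ T ∧ ∃ p : ℤ,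
    |q * ((a.1 + β) / a.2) - p| ≤ c * ψ q)

open Classical in
/-- the bad vectors `(x_0, x, y)` -/
noncomputable def BV {n : ℕ} (ω : Fin n → ℝ) (ψ : ℕ → ℝ) (c κ : ℝ) (H : ℕ) :
    Finset (ℤ × (Fin n → ℤ) × ℕ) :=
  (Icc (-(H : ℤ)) H ×ˢ bx n H ×ˢ Icc 1 H).filter fun v => v.2.1 ≠ 0 ∧ ∃ q : ℕ, 1 ≤ q ∧
    (q : ℝ) ≤ (H : ℝ) ^ κ ∧ ∃ p : ℤ, |q * ((v.1 + lf ω v.2.1) / v.2.2) - p| ≤ c * ψ q

lemma BP_card_le (β : ℝ) (ψ : ℕ → ℝ) (c : ℝ) (H T : ℕ) :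
    ((BP β ψ c H T).card : ℝ) ≤ (2 * H + 1) * H := by
  classical
  have h1 : (BP β ψ c H T).card ≤ (2 * H + 1) * H := by
    unfold BP
    refine (Finset.card_filter_le _ _).trans (le_of_eq ?_)
    rw [Finset.card_product, card_box, Nat.card_Icc]
    rfl
  exact_mod_cast h1

lemma BV_card_le {n : ℕ} (ω : Fin n → ℝ) (ψ : ℕ → ℝ) (c κ : ℝ) (H : ℕ) (Ex : Finset (Fin n → ℤ))
    (Vb : ℝ) (hVb0 : 0 ≤ Vb)
    (hV : ∀ x ∈ bx n H, x ≠ 0 → x ∉ Ex → ((BP (lf ω x) ψ c H ⌊(H : ℝ) ^ κ⌋₊).card : ℝ) ≤ Vb) :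
    ((BV ω ψ c κ H).card : ℝ) ≤ (2 * H + 1) ^ n * Vb + Ex.card * ((2 * H + 1) * H) := by
  classical
  have hsub : BV ω ψ c κ H ⊆ ((bx n H).filter (fun x => x ≠ 0)).biUnion fun x =>
      (BP (lf ω x) ψ c H ⌊(H : ℝ) ^ κ⌋₊).image (fun a => (a.1, x, a.2)) := by
    rintro ⟨x0, x, y⟩ hv
    unfold BV at hv
    rw [Finset.mem_filter, Finset.mem_product, Finset.mem_product] at hv
    obtain ⟨⟨h1, h2, h3⟩, h4, q, h5, h6, p, h7⟩ := hv
    simp only at h1 h2 h3 h4 h7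
    rw [Finset.mem_biUnion]
    refine ⟨x, Finset.mem_filter.2 ⟨h2, h4⟩, ?_⟩
    rw [Finset.mem_image]
    refine ⟨(x0, y), ?_, rfl⟩
    unfold BP
    rw [Finset.mem_filter, Finset.mem_product]
    exact ⟨⟨h1, h3⟩, q, h5, Nat.le_floor h6, p, h7⟩
  have h1 := (Finset.card_le_card hsub).trans Finset.card_biUnion_le
  refine le_trans (Nat.cast_le.2 h1) ?_
  push_cast
  have h2 : ∀ x ∈ (bx n H).filter (fun x => x ≠ 0),
      (((BP (lf ω x) ψ c H ⌊(H : ℝ) ^ κ⌋₊).image (fun a => (a.1, x, a.2))).card : ℝ) ≤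
      Vb + if x ∈ Ex then ((2 * H + 1) * H : ℝ) else 0 := by
    intro x hx
    rw [Finset.mem_filter] at hx
    refine le_trans (Nat.cast_le.2 Finset.card_image_le) ?_
    split_ifs with h
    · have := BP_card_le (lf ω x) ψ c H ⌊(H : ℝ) ^ κ⌋₊
      linarith
    · rw [add_zero]
      exact hV x hx.1 hx.2 h
  refine (Finset.sum_le_sum h2).trans ?_
  rw [Finset.sum_add_distrib]
  apply add_le_add
  · rw [Finset.sum_const, nsmul_eq_mul]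
    apply mul_le_mul_of_nonneg_right _ hVb0
    have h3 : ((bx n H).filter (fun x => x ≠ 0)).card ≤ (2 * H + 1) ^ n :=
      (Finset.card_filter_le _ _).trans (le_of_eq (card_bx n H))
    exact_mod_cast h3
  · rw [← Finset.sum_filter, Finset.sum_const, nsmul_eq_mul]
    apply mul_le_mul_of_nonneg_right _ (by positivity)
    apply Nat.cast_le.2
    apply Finset.card_le_card
    intro x hx
    exact (Finset.mem_filter.1 hx).2

lemma exists_S (ψ : ℕ → ℝ) (hanti : Antitone ψ) (h0 : ∀ q, 0 ≤ ψ q) (hsum : Summable ψ) :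
    ∃ S : ℝ, 0 < S ∧ ∀ q : ℕ, q * ψ q ≤ S := by
  refine ⟨(∑' q, ψ q) + 1, ?_, fun q => ?_⟩
  · have : 0 ≤ ∑' q, ψ q := tsum_nonneg h0
    linarith
  · have h1 : (q : ℝ) * ψ q ≤ ∑ i ∈ range q, ψ i := by
      rw [← nsmul_eq_mul, ← Finset.card_range q, ← Finset.sum_const, Finset.card_range]
      refine Finset.sum_le_sum fun i hi => hanti (Finset.mem_range.1 hi).le
    have h2 : ∑ i ∈ range q, ψ i ≤ ∑' q, ψ q := hsum.sum_le_tsum _ (fun i _ => h0 i)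
    linarith

lemma part1 (ψ : ℕ → ℝ) (hanti : Antitone ψ) (h0 : ∀ q, 0 ≤ ψ q) (hsum : Summable ψ) :
    ∃ C : ℝ, 0 < C ∧ ∀ c : ℝ, 0 ≤ c → ∀ H T E : ℕ, 1 ≤ H →
      ∑ j ∈ range (Nat.log 2 H + 1), ∑ i ∈ range (Nat.log 2 T + 1), ∑ D ∈ Icc 1 E,
        (16 * c * 2 ^ j * ψ (2 ^ i) * 2 ^ i / D ^ 2) * (6 * H * D.divisors.card) ≤
      C * c * (H : ℝ) ^ 2 := by
  have hcond : Summable (fun k : ℕ => (2 : ℝ) ^ k * ψ (2 ^ k)) :=
    (summable_condensed_iff_of_nonneg h0 (fun m n _ hmn => hanti hmn)).2 hsum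
  obtain ⟨Cd, hCd, hd⟩ := Pool.Agent.H510R2.divisor_bound (1 / 2) (by norm_num)
  have hs2 : Summable (fun n : ℕ => 1 / (n : ℝ) ^ (3 / 2 : ℝ)) :=
    Real.summable_one_div_nat_rpow.2 (by norm_num)
  set S2 : ℝ := ∑' k : ℕ, (2 : ℝ) ^ k * ψ (2 ^ k) with hS2
  set S3 : ℝ := Cd * ∑' n : ℕ, 1 / (n : ℝ) ^ (3 / 2 : ℝ) with hS3
  have hS20 : 0 ≤ S2 := tsum_nonneg fun k => mul_nonneg (by positivity) (h0 _)
  have hS30 : 0 ≤ S3 := mul_nonneg hCd.le (tsum_nonneg fun k => by positivity)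
  refine ⟨192 * S2 * S3 + 1, by positivity, fun c hc H T E hH => ?_⟩
  have e1 : ∑ j ∈ range (Nat.log 2 H + 1), ∑ i ∈ range (Nat.log 2 T + 1), ∑ D ∈ Icc 1 E,
        (16 * c * 2 ^ j * ψ (2 ^ i) * 2 ^ i / (D : ℝ) ^ 2) * (6 * H * D.divisors.card) =
      96 * c * H * ((∑ j ∈ range (Nat.log 2 H + 1), (2 : ℝ) ^ j) *
        ((∑ i ∈ range (Nat.log 2 T + 1), (2 : ℝ) ^ i * ψ (2 ^ i)) *
          ∑ D ∈ Icc 1 E, (D.divisors.card : ℝ) / D ^ 2)) := by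
    rw [Finset.sum_mul, Finset.mul_sum]
    refine Finset.sum_congr rfl fun j _ => ?_
    rw [Finset.sum_mul, Finset.mul_sum, Finset.mul_sum]
    refine Finset.sum_congr rfl fun i _ => ?_
    rw [Finset.mul_sum, Finset.mul_sum, Finset.mul_sum]
    refine Finset.sum_congr rfl fun D _ => ?_
    ring
  rw [e1]
  have h1 : ∑ j ∈ range (Nat.log 2 H + 1), (2 : ℝ) ^ j ≤ 2 * H := by
    rw [geom_sum_eq (by norm_num)]
    have h2 : 2 ^ Nat.log 2 H ≤ H := Nat.pow_log_le_self 2 (by omega)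
    have h3 : (2 : ℝ) ^ Nat.log 2 H ≤ H := by exact_mod_cast h2
    have h4 : ((2 : ℝ) ^ (Nat.log 2 H + 1) - 1) / (2 - 1) = 2 * 2 ^ Nat.log 2 H - 1 := by
      rw [pow_succ]
      norm_num
      ring
    rw [h4]
    linarith
  have h2 : ∑ i ∈ range (Nat.log 2 T + 1), (2 : ℝ) ^ i * ψ (2 ^ i) ≤ S2 :=
    hcond.sum_le_tsum _ (fun i _ => mul_nonneg (by positivity) (h0 _))
  have h3 : ∑ D ∈ Icc 1 E, (D.divisors.card : ℝ) / (D : ℝ) ^ 2 ≤ S3 := by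
    calc ∑ D ∈ Icc 1 E, (D.divisors.card : ℝ) / (D : ℝ) ^ 2 ≤
        ∑ D ∈ Icc 1 E, Cd * (1 / (D : ℝ) ^ (3 / 2 : ℝ)) := by
          refine Finset.sum_le_sum fun D hD => ?_
          rw [Finset.mem_Icc] at hD
          have hD0 : (0 : ℝ) < D := by exact_mod_cast (by omega : 0 < D)
          have h4 := hd D hD.1
          have h5 : (D : ℝ) ^ 2 = (D : ℝ) ^ (1 / 2 : ℝ) * (D : ℝ) ^ (3 / 2 : ℝ) := by
            rw [← Real.rpow_add hD0, ← Real.rpow_natCast]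
            norm_num
          rw [h5, div_le_iff₀ (by positivity)]
          calc (D.divisors.card : ℝ) ≤ Cd * (D : ℝ) ^ (1 / 2 : ℝ) := h4
            _ = _ := by field_simp
      _ = Cd * ∑ D ∈ Icc 1 E, 1 / (D : ℝ) ^ (3 / 2 : ℝ) := by rw [Finset.mul_sum]
      _ ≤ S3 := mul_le_mul_of_nonneg_left (hs2.sum_le_tsum _ (fun i _ => by positivity)) hCd.le
  have p1 : (0 : ℝ) ≤ ∑ j ∈ range (Nat.log 2 H + 1), (2 : ℝ) ^ j :=
    Finset.sum_nonneg fun i _ => by positivity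
  have p2 : (0 : ℝ) ≤ ∑ i ∈ range (Nat.log 2 T + 1), (2 : ℝ) ^ i * ψ (2 ^ i) :=
    Finset.sum_nonneg fun i _ => mul_nonneg (by positivity) (h0 _)
  have p3 : (0 : ℝ) ≤ ∑ D ∈ Icc 1 E, (D.divisors.card : ℝ) / (D : ℝ) ^ 2 :=
    Finset.sum_nonneg fun i _ => by positivity
  have hH0 : (0 : ℝ) ≤ H := Nat.cast_nonneg H
  calc 96 * c * H * ((∑ j ∈ range (Nat.log 2 H + 1), (2 : ℝ) ^ j) *
        ((∑ i ∈ range (Nat.log 2 T + 1), (2 : ℝ) ^ i * ψ (2 ^ i)) *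
          ∑ D ∈ Icc 1 E, (D.divisors.card : ℝ) / D ^ 2)) ≤ 96 * c * H * ((2 * H) * (S2 * S3)) := by
        have q1 : (0 : ℝ) ≤ 96 * c * H := mul_nonneg (mul_nonneg (by norm_num) hc) hH0
        exact mul_le_mul_of_nonneg_left (mul_le_mul h1 (mul_le_mul h2 h3 p3 hS20)
          (mul_nonneg p2 p3) (mul_nonneg (by norm_num) hH0)) q1
    _ = 192 * S2 * S3 * c * (H : ℝ) ^ 2 := by ring
    _ ≤ (192 * S2 * S3 + 1) * c * (H : ℝ) ^ 2 := by
        have : 0 ≤ c * (H : ℝ) ^ 2 := by positivity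
        nlinarith

lemma part2 (τ Cd : ℝ) (hτ : 0 < τ) (hCd : 0 < Cd)
    (hd : ∀ l : ℕ, 1 ≤ l → (l.divisors.card : ℝ) ≤ Cd * (l : ℝ) ^ τ) (H T E : ℕ) :
    ∑ j ∈ range (Nat.log 2 H + 1), ∑ i ∈ range (Nat.log 2 T + 1), ∑ D ∈ Icc 1 E,
        (1 : ℝ) * (6 * H * D.divisors.card) ≤
      ((Nat.log 2 H : ℝ) + 2) * (((Nat.log 2 T : ℝ) + 2) * (6 * H * (Cd * (E * (E : ℝ) ^ τ)))) := by
  have h1 : ∑ D ∈ Icc 1 E, (1 : ℝ) * (6 * H * D.divisors.card) ≤ 6 * H * (Cd * (E * (E : ℝ) ^ τ)) := by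
    calc ∑ D ∈ Icc 1 E, (1 : ℝ) * (6 * H * D.divisors.card) ≤
        ∑ D ∈ Icc 1 E, 6 * (H : ℝ) * (Cd * (E : ℝ) ^ τ) := by
          refine Finset.sum_le_sum fun D hD => ?_
          rw [Finset.mem_Icc] at hD
          rw [one_mul]
          apply mul_le_mul_of_nonneg_left _ (by positivity)
          refine (hd D hD.1).trans (mul_le_mul_of_nonneg_left ?_ hCd.le)
          exact Real.rpow_le_rpow (Nat.cast_nonneg _) (by exact_mod_cast hD.2) hτ.le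
      _ = _ := by
          rw [Finset.sum_const, Nat.card_Icc, nsmul_eq_mul, Nat.add_sub_cancel]
          ring
  have h0 : (0 : ℝ) ≤ 6 * H * (Cd * (E * (E : ℝ) ^ τ)) := by positivity
  calc ∑ j ∈ range (Nat.log 2 H + 1), ∑ i ∈ range (Nat.log 2 T + 1), ∑ D ∈ Icc 1 E,
        (1 : ℝ) * (6 * H * D.divisors.card) ≤
      ∑ j ∈ range (Nat.log 2 H + 1), ∑ i ∈ range (Nat.log 2 T + 1),
        6 * (H : ℝ) * (Cd * (E * (E : ℝ) ^ τ)) :=
        Finset.sum_le_sum fun j _ => Finset.sum_le_sum fun i _ => h1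
    _ = ((Nat.log 2 H : ℝ) + 1) * (((Nat.log 2 T : ℝ) + 1) * (6 * H * (Cd * (E * (E : ℝ) ^ τ)))) := by
        rw [Finset.sum_const, Finset.sum_const, Finset.card_range, Finset.card_range, nsmul_eq_mul,
          nsmul_eq_mul]
        push_cast
        ring
    _ ≤ _ := by
        have a1 : (0 : ℝ) ≤ Nat.log 2 H := Nat.cast_nonneg _
        have a2 : (0 : ℝ) ≤ Nat.log 2 T := Nat.cast_nonneg _
        apply mul_le_mul (by linarith) _ (by positivity) (by positivity)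
        exact mul_le_mul_of_nonneg_right (by linarith) h0

/-- **The bad vectors, for large `H`** -/
theorem core {n : ℕ} (ω : Fin (n + 1) → ℝ) (halg : ∀ i, IsAlgebraic ℚ (ω i)) (hli : Ind ω)
    (κ : ℝ) (hκ1 : 1 ≤ κ) (hκ : n = 0 ∨ κ < n + 2) (ψ : ℕ → ℝ) (hanti : Antitone ψ)
    (h0 : ∀ q, 0 ≤ ψ q) (hsum : Summable ψ) :
    ∃ C δ' : ℝ, 0 < C ∧ 0 < δ' ∧ ∀ᶠ H : ℕ in atTop, ∀ c : ℝ, 0 < c → c ≤ 1 →
      ((BV ω ψ c κ H).card : ℝ) ≤ C * (c + (H : ℝ) ^ (-δ')) * (H : ℝ) ^ (n + 3) := by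
  classical
  obtain ⟨S, hS0, hS⟩ := exists_S ψ hanti h0 hsum
  obtain ⟨δ, hδ0, hδ1, e, he, hPB⟩ := exc_PB ω halg hli κ hκ1 hκ S hS0
  obtain ⟨C1, hC1, hp1⟩ := part1 ψ hanti h0 hsum
  obtain ⟨Cd, hCd, hd⟩ := Pool.Agent.H510R2.divisor_bound (δ / 4) (by positivity)
  set k : ℝ := κ - 1 + δ with hk
  -- the second part
  set P2 : ℕ → ℝ := fun H => ((Nat.log 2 H : ℝ) + 2) * (((Nat.log 2 ⌊(H : ℝ) ^ κ⌋₊ : ℝ) + 2) *
    (6 * H * (Cd * ((⌊(H : ℝ) ^ (1 - δ)⌋₊ : ℝ) * (⌊(H : ℝ) ^ (1 - δ)⌋₊ : ℝ) ^ (δ / 4))))) with hP2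
  have hP2pos : ∀ H, 0 ≤ P2 H := fun H => by rw [hP2]; positivity
  have hE : PB (fun H => ((⌊(H : ℝ) ^ (1 - δ)⌋₊ : ℕ) : ℝ)) (1 - δ) := PB_floor (1 - δ)
  have hP2B : PB P2 (δ / 8 + (δ / 8 + (1 + ((1 - δ) + δ / 4 * (1 - δ))))) := by
    have a1 : PB (fun H => ((Nat.log 2 H : ℕ) : ℝ) + 2) (δ / 8) := PB.id.log (by norm_num) _ (by positivity)
    have a2 : PB (fun H => ((Nat.log 2 ⌊(H : ℝ) ^ κ⌋₊ : ℕ) : ℝ) + 2) (δ / 8) :=
      (PB_floor κ).log (by linarith) _ (by positivity)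
    have a3 : PB (fun H => 6 * (H : ℝ)) 1 := PB.id.const_mul (fun H => by positivity) 6
    have a4 : PB (fun H => Cd * ((⌊(H : ℝ) ^ (1 - δ)⌋₊ : ℝ) * (⌊(H : ℝ) ^ (1 - δ)⌋₊ : ℝ) ^ (δ / 4)))
        ((1 - δ) + δ / 4 * (1 - δ)) :=
      (hE.mul (hE.rpow (fun H => by positivity) (δ / 4) (by positivity))
        (fun H => by positivity)).const_mul (fun H => by positivity) Cd
    exact a1.mul (a2.mul (a3.mul a4 (fun H => by positivity)) (fun H => by positivity))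
      (fun H => by positivity)
  have hlin : PB (fun H => (2 * (H : ℝ) + 1)) 1 :=
    (PB.id.const_mul (fun H => by positivity) 2).add ((PB.const 1).mono_exp (by norm_num))
  have hA : PB (fun H => (2 * (H : ℝ) + 1) ^ (n + 1)) (((n + 1 : ℕ) : ℝ) * 1) :=
    hlin.pow (fun H => by positivity) (n + 1)
  have hB1 := hA.mul hP2B hP2pos
  have hB2 : PB (fun H => ((Exc ω H ⌊(H : ℝ) ^ k⌋₊ (S * (H : ℝ) ^ (-1 + 2 * δ))).card : ℝ) *
      ((2 * H + 1) * H)) (e + (1 + 1)) :=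
    hPB.mul (hlin.mul PB.id (fun H => by positivity)) (fun H => by positivity)
  set δ' : ℝ := min (δ / 4) (n + 1 - e) with hδ'
  have hδ'0 : 0 < δ' := lt_min (by positivity) (by linarith)
  have hδ'1 : δ' ≤ δ / 4 := min_le_left _ _
  have hδ'2 : δ' ≤ n + 1 - e := min_le_right _ _
  have hB1' := hB1.mono_exp (e' := ((n + 3 : ℕ) : ℝ) - δ') (by
    push_cast
    nlinarith)
  have hB2' := hB2.mono_exp (e' := ((n + 3 : ℕ) : ℝ) - δ') (by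
    push_cast
    linarith)
  obtain ⟨C2, hC2, hev⟩ := hB1'.add hB2'
  refine ⟨3 ^ (n + 1) * C1 + C2, δ', by positivity, hδ'0, ?_⟩
  filter_upwards [hev, eventually_ge_atTop 1] with H h1 hH c hc0 hc1
  have hH0 : (0 : ℝ) < H := by exact_mod_cast (by omega : 0 < H)
  have hH1 : (1 : ℝ) ≤ H := by exact_mod_cast hH
  have hexp : (H : ℝ) ^ (((n + 3 : ℕ) : ℝ) - δ') = (H : ℝ) ^ (-δ') * (H : ℝ) ^ (n + 3) := by
    rw [← Real.rpow_natCast, ← Real.rpow_add hH0]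
    congr 1
    ring
  rw [hexp] at h1
  set T : ℕ := ⌊(H : ℝ) ^ κ⌋₊ with hT
  set E : ℕ := ⌊(H : ℝ) ^ (1 - δ)⌋₊ with hEd
  have hBP : ∀ x ∈ bx (n + 1) H, x ≠ 0 → x ∉ Exc ω H ⌊(H : ℝ) ^ k⌋₊ (S * (H : ℝ) ^ (-1 + 2 * δ)) →
      ((BP (lf ω x) ψ c H T).card : ℝ) ≤ C1 * c * (H : ℝ) ^ 2 + P2 H := by
    intro x hx hx0 hxe
    have h3 := main_count (lf ω x) ψ hanti h0 c hc0.le H T E hH (by
      intro D q hD hq hDq m
      have hD1 : (H : ℝ) ^ (1 - δ) < D := by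
        have := Nat.lt_floor_add_one ((H : ℝ) ^ (1 - δ))
        have h4 : (E : ℝ) + 1 ≤ D := by exact_mod_cast hD
        linarith
      have hDp : (0 : ℝ) < D := lt_trans (by positivity) hD1
      have hqp : (0 : ℝ) < q := by exact_mod_cast (by omega : 0 < q)
      have hDqT : (D : ℝ) * q ≤ (H : ℝ) ^ κ := by
        have h4 : ((D * q : ℕ) : ℝ) ≤ T := by exact_mod_cast hDq
        have h5 : (T : ℝ) ≤ (H : ℝ) ^ κ := Nat.floor_le (by positivity)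
        push_cast at h4
        linarith
      have hqZ : q ≤ ⌊(H : ℝ) ^ k⌋₊ := by
        apply Nat.le_floor
        have h4 : (H : ℝ) ^ κ = (H : ℝ) ^ (1 - δ) * (H : ℝ) ^ k := by
          rw [← Real.rpow_add hH0]
          congr 1
          rw [hk]
          ring
        rw [h4] at hDqT
        have h5 : (H : ℝ) ^ (1 - δ) * q ≤ (H : ℝ) ^ (1 - δ) * (H : ℝ) ^ k :=
          (mul_le_mul_of_nonneg_right hD1.le hqp.le).trans hDqT
        exact le_of_mul_le_mul_left h5 (by positivity)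
      have h4 : S * (H : ℝ) ^ (-1 + 2 * δ) < q * nd (q * lf ω x) := by
        by_contra hcon
        push Not at hcon
        apply hxe
        unfold Exc
        rw [Finset.mem_filter]
        exact ⟨hx, hx0, q, hq, hqZ, hcon⟩
      have h5 : nd (q * lf ω x) ≤ |(q : ℝ) * lf ω x - m| := nd_le _ _
      have h6 : c * H * ψ (D * q) / D ≤ S * (H : ℝ) ^ (-1 + 2 * δ) / q := by
        have h7 := hS (D * q)
        push_cast at h7
        have h8 : ψ (D * q) ≤ S / (D * q) := by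
          rw [le_div_iff₀ (by positivity)]
          linarith
        have h9 : c * H * ψ (D * q) / D ≤ 1 * H * (S / (D * q)) / D := by
          apply div_le_div_of_nonneg_right _ hDp.le
          apply mul_le_mul _ h8 (h0 _) (by positivity)
          exact mul_le_mul_of_nonneg_right hc1 hH0.le
        refine h9.trans ?_
        have h10 : ((H : ℝ) ^ (1 - δ)) ^ 2 ≤ (D : ℝ) ^ 2 :=
          pow_le_pow_left₀ (by positivity) hD1.le 2
        have h11 : (H : ℝ) = (H : ℝ) ^ (-1 + 2 * δ) * ((H : ℝ) ^ (1 - δ)) ^ 2 := by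
          rw [← Real.rpow_natCast, ← Real.rpow_mul hH0.le, ← Real.rpow_add hH0]
          have : -1 + 2 * δ + (1 - δ) * ((2 : ℕ) : ℝ) = 1 := by push_cast; ring
          rw [this, Real.rpow_one]
        have h12 : (0 : ℝ) < (H : ℝ) ^ (-1 + 2 * δ) := by positivity
        have h13 : (H : ℝ) ≤ (H : ℝ) ^ (-1 + 2 * δ) * (D : ℝ) ^ 2 := by
          calc (H : ℝ) = (H : ℝ) ^ (-1 + 2 * δ) * ((H : ℝ) ^ (1 - δ)) ^ 2 := h11
            _ ≤ _ := mul_le_mul_of_nonneg_left h10 h12.le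
        calc 1 * (H : ℝ) * (S / (D * q)) / D = (H : ℝ) * S / (D ^ 2 * q) := by field_simp
          _ ≤ ((H : ℝ) ^ (-1 + 2 * δ) * (D : ℝ) ^ 2) * S / (D ^ 2 * q) := by
              apply div_le_div_of_nonneg_right _ (by positivity)
              exact mul_le_mul_of_nonneg_right h13 hS0.le
          _ = S * (H : ℝ) ^ (-1 + 2 * δ) / q := by field_simp
      have h7 : S * (H : ℝ) ^ (-1 + 2 * δ) / q < nd (q * lf ω x) := by
        rw [div_lt_iff₀ hqp]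
        linarith
      linarith)
    have h4 : ((BP (lf ω x) ψ c H T).card : ℝ) ≤ _ := h3
    refine h4.trans ?_
    have h5 : ∑ j ∈ range (Nat.log 2 H + 1), ∑ i ∈ range (Nat.log 2 T + 1), ∑ D ∈ Icc 1 E,
        (16 * c * 2 ^ j * ψ (2 ^ i) * 2 ^ i / (D : ℝ) ^ 2 + 1) * (6 * H * D.divisors.card) =
        (∑ j ∈ range (Nat.log 2 H + 1), ∑ i ∈ range (Nat.log 2 T + 1), ∑ D ∈ Icc 1 E,
        (16 * c * 2 ^ j * ψ (2 ^ i) * 2 ^ i / (D : ℝ) ^ 2) * (6 * H * D.divisors.card)) +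
        ∑ j ∈ range (Nat.log 2 H + 1), ∑ i ∈ range (Nat.log 2 T + 1), ∑ D ∈ Icc 1 E,
        (1 : ℝ) * (6 * H * D.divisors.card) := by
      rw [← Finset.sum_add_distrib]
      refine Finset.sum_congr rfl fun j _ => ?_
      rw [← Finset.sum_add_distrib]
      refine Finset.sum_congr rfl fun i _ => ?_
      rw [← Finset.sum_add_distrib]
      refine Finset.sum_congr rfl fun D _ => ?_
      rw [add_mul]
    rw [h5]
    exact add_le_add (hp1 c hc0.le H T E hH) (part2 (δ / 4) Cd (by positivity) hCd hd H T E)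
  have hfin := BV_card_le ω ψ c κ H (Exc ω H ⌊(H : ℝ) ^ k⌋₊ (S * (H : ℝ) ^ (-1 + 2 * δ)))
    (C1 * c * (H : ℝ) ^ 2 + P2 H) (add_nonneg (by positivity) (hP2pos H)) hBP
  refine hfin.trans ?_
  have h3 : (2 * (H : ℝ) + 1) ^ (n + 1) * (C1 * c * (H : ℝ) ^ 2) ≤
      3 ^ (n + 1) * C1 * c * (H : ℝ) ^ (n + 3) := by
    have h4 : (2 * (H : ℝ) + 1) ^ (n + 1) ≤ (3 * (H : ℝ)) ^ (n + 1) :=
      pow_le_pow_left₀ (by positivity) (by linarith) _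
    calc (2 * (H : ℝ) + 1) ^ (n + 1) * (C1 * c * (H : ℝ) ^ 2) ≤
        (3 * (H : ℝ)) ^ (n + 1) * (C1 * c * (H : ℝ) ^ 2) :=
          mul_le_mul_of_nonneg_right h4 (by positivity)
      _ = 3 ^ (n + 1) * C1 * c * (H : ℝ) ^ (n + 3) := by
          rw [mul_pow]
          ring
  have h4 : (2 * (H : ℝ) + 1) ^ (n + 1) * (C1 * c * (H : ℝ) ^ 2 + P2 H) =
      (2 * (H : ℝ) + 1) ^ (n + 1) * (C1 * c * (H : ℝ) ^ 2) + (2 * (H : ℝ) + 1) ^ (n + 1) * P2 H := by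
    ring
  rw [h4]
  have h5 : (0 : ℝ) < (H : ℝ) ^ (-δ') := by positivity
  have h6 : (0 : ℝ) < (H : ℝ) ^ (n + 3) := by positivity
  have h7 : (3 ^ (n + 1) * C1 + C2) * (c + (H : ℝ) ^ (-δ')) * (H : ℝ) ^ (n + 3) =
      3 ^ (n + 1) * C1 * c * (H : ℝ) ^ (n + 3) + C2 * ((H : ℝ) ^ (-δ') * (H : ℝ) ^ (n + 3)) +
      (3 ^ (n + 1) * C1 * ((H : ℝ) ^ (-δ') * (H : ℝ) ^ (n + 3)) + C2 * (c * (H : ℝ) ^ (n + 3))) := by
    ring
  rw [h7]
  have h8 : 0 ≤ (3 ^ (n + 1) * C1 * ((H : ℝ) ^ (-δ') * (H : ℝ) ^ (n + 3)) + C2 * (c * (H : ℝ) ^ (n + 3))) := by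
    positivity
  linarith

end Pool.Agent.NH20.NF
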