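import Mathlib

/-!
# The function `1 / (q (log q) ^ (1 + ε))`
-/

set_option autoImplicit false

open Finset Filter Topology

namespace Pool.Agent.NH20.NF

/-- `1 / (q (log q) ^ (1 + ε))` for `q ≥ 2`, constant for `q ≤ 2` -/
noncomputable def lang (ε : ℝ) (q : ℕ) : ℝ :=
  1 / (((max q 2 : ℕ) : ℝ) * Real.log ((max q 2 : ℕ) : ℝ) ^ (1 + ε))

lemma lang_hm (q : ℕ) : (0 : ℝ) < ((max q 2 : ℕ) : ℝ) := by
  have : (0 : ℕ) < max q 2 := by omega
  exact_mod_cast this

lemma lang_log (q : ℕ) : 0 < Real.log ((max q 2 : ℕ) : ℝ) := by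
  apply Real.log_pos
  have : (1 : ℕ) < max q 2 := by omega
  exact_mod_cast this

lemma lang_nonneg (ε : ℝ) (q : ℕ) : 0 ≤ lang ε q := by
  have h1 := lang_log q
  have h2 := lang_hm q
  unfold lang
  positivity

lemma lang_anti {ε : ℝ} (hε : 0 < ε) : Antitone (lang ε) := by
  intro m n hmn
  unfold lang
  have h1 := lang_log m
  have h2 := lang_hm m
  have h3 : ((max m 2 : ℕ) : ℝ) ≤ ((max n 2 : ℕ) : ℝ) := by
    have : max m 2 ≤ max n 2 := by omega
    exact_mod_cast this
  apply one_div_le_one_div_of_le (by positivity)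
  refine mul_le_mul h3 ?_ (by positivity) (lang_hm n).le
  exact Real.rpow_le_rpow h1.le (Real.log_le_log h2 h3) (by linarith)

lemma lang_summable {ε : ℝ} (hε : 0 < ε) : Summable (lang ε) := by
  rw [← summable_condensed_iff_of_nonneg (lang_nonneg ε)]
  · have h1 : (0 : ℝ) < Real.log 2 := Real.log_pos (by norm_num)
    rw [← summable_nat_add_iff 1]
    have h2 : Summable (fun k : ℕ => (Real.log 2 ^ (1 + ε))⁻¹ * (((k + 1 : ℕ) : ℝ) ^ (1 + ε))⁻¹) := by
      apply Summable.mul_left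
      exact (summable_nat_add_iff 1).mpr (Real.summable_nat_rpow_inv.mpr (by linarith))
    refine h2.congr fun k => ?_
    have e1 : max (2 ^ (k + 1)) 2 = 2 ^ (k + 1) := by
      have : (2 : ℕ) ^ 1 ≤ 2 ^ (k + 1) := Nat.pow_le_pow_right (by norm_num) (by omega)
      omega
    unfold lang
    rw [e1]
    push_cast
    rw [Real.log_pow]
    push_cast
    rw [Real.mul_rpow (by positivity) h1.le]
    have e2 : (0 : ℝ) < (2 : ℝ) ^ (k + 1) := by positivity
    field_simp
  · intro m n _ hmn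
    exact lang_anti hε hmn

lemma lang_eq (ε : ℝ) (q : ℕ) (hq : 2 ≤ q) : lang ε q = 1 / ((q : ℝ) * Real.log q ^ (1 + ε)) := by
  unfold lang
  rw [max_eq_left hq]

end Pool.Agent.NH20.NF
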