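import Mathlib
import Pool.Agent.NH20.NF.Core

/-!
# The number of bad vectors, for all `H`
-/

set_option autoImplicit false

open Finset Filter Topology

namespace Pool.Agent.NH20.NF

lemma BV_mono {n : ℕ} (ω : Fin n → ℝ) (ψ : ℕ → ℝ) (h0 : ∀ q, 0 ≤ ψ q) {c c' κ κ' : ℝ} (hc : c ≤ c')
    (hκ : κ ≤ κ') (H : ℕ) (hH : 1 ≤ H) : BV ω ψ c κ H ⊆ BV ω ψ c' κ' H := by
  classical
  intro v hv
  unfold BV at hv ⊢
  rw [Finset.mem_filter] at hv ⊢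
  obtain ⟨h1, h2, q, h3, h4, p, h5⟩ := hv
  refine ⟨h1, h2, q, h3, h4.trans ?_, p, h5.trans ?_⟩
  · exact Real.rpow_le_rpow_of_exponent_le (by exact_mod_cast hH) hκ
  · exact mul_le_mul_of_nonneg_right hc (h0 q)

lemma BV_trivial {n : ℕ} (ω : Fin n → ℝ) (ψ : ℕ → ℝ) (c κ : ℝ) (H : ℕ) (hH : 1 ≤ H) :
    ((BV ω ψ c κ H).card : ℝ) ≤ 3 ^ (n + 1) * (H : ℝ) ^ (n + 2) := by
  classical
  have h1 : (BV ω ψ c κ H).card ≤ (2 * H + 1) * ((2 * H + 1) ^ n * H) := by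
    unfold BV
    refine (Finset.card_filter_le _ _).trans (le_of_eq ?_)
    rw [Finset.card_product, Finset.card_product, card_box, card_bx, Nat.card_Icc]
    rfl
  have hH1 : (1 : ℝ) ≤ H := by exact_mod_cast hH
  calc ((BV ω ψ c κ H).card : ℝ) ≤ (2 * H + 1) * ((2 * H + 1) ^ n * H) := by exact_mod_cast h1
    _ = (2 * (H : ℝ) + 1) ^ (n + 1) * H := by ring
    _ ≤ (3 * (H : ℝ)) ^ (n + 1) * H := by
        apply mul_le_mul_of_nonneg_right _ (by positivity)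
        exact pow_le_pow_left₀ (by positivity) (by linarith) _
    _ = _ := by ring

/-- **The bad vectors** -/
theorem uni {n : ℕ} (ω : Fin (n + 1) → ℝ) (halg : ∀ i, IsAlgebraic ℚ (ω i)) (hli : Ind ω)
    (κ : ℝ) (hκ : n = 0 ∨ κ < n + 2) (ψ : ℕ → ℝ) (hanti : Antitone ψ)
    (h0 : ∀ q, 0 ≤ ψ q) (hsum : Summable ψ) :
    ∃ C δ : ℝ, 0 < C ∧ 0 < δ ∧ ∀ c : ℝ, 0 < c → c ≤ 1 → ∀ H : ℕ, 1 ≤ H →
      ((BV ω ψ c κ H).card : ℝ) ≤ C * (c + (H : ℝ) ^ (-δ)) * (H : ℝ) ^ (n + 3) := by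
  obtain ⟨C, δ, hC, hδ, hev⟩ := core ω halg hli (max κ 1) (le_max_right _ _) (by
    rcases hκ with h | h
    · exact Or.inl h
    · right
      apply max_lt h
      have : (0 : ℝ) ≤ n := Nat.cast_nonneg n
      linarith) ψ hanti h0 hsum
  obtain ⟨H0, hH0⟩ := Filter.eventually_atTop.1 hev
  refine ⟨C + 3 ^ (n + 2) * ((H0 : ℝ) + 1) ^ δ, δ, by positivity, hδ, fun c hc hc1 H hH => ?_⟩
  have hHp : (0 : ℝ) < H := by exact_mod_cast (by omega : 0 < H)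
  have h6 : (0 : ℝ) < (H : ℝ) ^ (-δ) := by positivity
  rcases le_total H0 H with h | h
  · have h1 := hH0 H h c hc hc1
    have h2 : ((BV ω ψ c κ H).card : ℝ) ≤ ((BV ω ψ c (max κ 1) H).card : ℝ) :=
      Nat.cast_le.2 (Finset.card_le_card (BV_mono ω ψ h0 le_rfl (le_max_left _ _) H hH))
    refine (h2.trans h1).trans ?_
    have h3 : 0 ≤ 3 ^ (n + 2) * ((H0 : ℝ) + 1) ^ δ * ((c + (H : ℝ) ^ (-δ)) * (H : ℝ) ^ (n + 3)) := by
      positivity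
    nlinarith
  · have h1 := BV_trivial ω ψ c κ H hH
    have h2 : (1 : ℝ) ≤ ((H0 : ℝ) + 1) ^ δ * (H : ℝ) ^ (-δ) := by
      rw [Real.rpow_neg hHp.le, ← div_eq_mul_inv, one_le_div (by positivity)]
      apply Real.rpow_le_rpow hHp.le _ hδ.le
      have : (H : ℝ) ≤ H0 := by exact_mod_cast h
      linarith
    have h3 : (0 : ℝ) ≤ 3 ^ (n + 2) * (H : ℝ) ^ (n + 3) := by positivity
    calc ((BV ω ψ c κ H).card : ℝ) ≤ 3 ^ (n + 2) * (H : ℝ) ^ (n + 3) := h1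
      _ ≤ (3 ^ (n + 2) * (H : ℝ) ^ (n + 3)) * (((H0 : ℝ) + 1) ^ δ * (H : ℝ) ^ (-δ)) := by
          nlinarith
      _ ≤ (3 ^ (n + 2) * (H : ℝ) ^ (n + 3)) * (((H0 : ℝ) + 1) ^ δ * (c + (H : ℝ) ^ (-δ))) := by
          apply mul_le_mul_of_nonneg_left _ h3
          apply mul_le_mul_of_nonneg_left _ (by positivity)
          linarith
      _ = (3 ^ (n + 2) * ((H0 : ℝ) + 1) ^ δ) * (c + (H : ℝ) ^ (-δ)) * (H : ℝ) ^ (n + 3) := by ring
      _ ≤ _ := by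
          apply mul_le_mul_of_nonneg_right _ (by positivity)
          apply mul_le_mul_of_nonneg_right _ (by positivity)
          linarith

lemma exists_min_pos {α : Type*} (s : Finset α) (f : α → ℝ) (hf : ∀ a ∈ s, 0 < f a) :
    ∃ c : ℝ, 0 < c ∧ ∀ a ∈ s, c ≤ f a := by
  rcases s.eq_empty_or_nonempty with h | h
  · exact ⟨1, one_pos, fun a ha => by rw [h] at ha; exact absurd ha (Finset.notMem_empty a)⟩
  · obtain ⟨b, hb, hmin⟩ := Finset.exists_min_image s f h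
    exact ⟨f b, hf b hb, hmin⟩

lemma nd_value_pos {n : ℕ} (ω : Fin n → ℝ) (hli : Ind ω) (x0 : ℤ) (x : Fin n → ℤ) (hx : x ≠ 0)
    (y : ℕ) (hy : 1 ≤ y) (q : ℕ) (hq : 1 ≤ q) : 0 < nd (q * ((x0 + lf ω x) / y)) := by
  have hy0 : (y : ℝ) ≠ 0 := by exact_mod_cast (by omega : y ≠ 0)
  unfold nd
  rw [abs_pos]
  intro h
  have h1 : (q : ℝ) * ((x0 + lf ω x) / y) = (round ((q : ℝ) * ((x0 + lf ω x) / y)) : ℤ) := by
    linarith
  set r : ℤ := round ((q : ℝ) * ((x0 + lf ω x) / y)) with hr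
  have h2 : (q : ℝ) * (x0 + lf ω x) = r * y := by
    field_simp at h1
    linarith
  have h3 := hli (q * x0 - r * y) (fun i => q * x i) (by
    have h4 : ∑ i, ((q * x i : ℤ) : ℝ) * ω i = q * lf ω x := by
      unfold lf
      rw [Finset.mul_sum]
      refine Finset.sum_congr rfl fun i _ => ?_
      push_cast
      ring
    rw [h4]
    push_cast
    linarith)
  apply hx
  funext i
  have h5 := congrFun h3.2 i
  simp only [Pi.zero_apply, mul_eq_zero] at h5 ⊢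
  rcases h5 with h5 | h5
  · exact absurd h5 (by exact_mod_cast (by omega : q ≠ 0))
  · exact h5

lemma BV_empty {n : ℕ} (ω : Fin n → ℝ) (hli : Ind ω) (κ : ℝ) (ψ : ℕ → ℝ) (hanti : Antitone ψ)
    (h0 : ∀ q, 0 ≤ ψ q) (H : ℕ) : ∃ c : ℝ, 0 < c ∧ BV ω ψ c κ H = ∅ := by
  classical
  set F : Finset ((ℤ × (Fin n → ℤ) × ℕ) × ℕ) :=
    ((Icc (-(H : ℤ)) H ×ˢ bx n H ×ˢ Icc 1 H) ×ˢ Icc 1 ⌊(H : ℝ) ^ κ⌋₊).filter (fun w => w.1.2.1 ≠ 0)
    with hF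
  obtain ⟨c0, hc0, hmin⟩ := exists_min_pos F (fun w => nd (w.2 * ((w.1.1 + lf ω w.1.2.1) / w.1.2.2)))
    (by
      rintro ⟨⟨x0, x, y⟩, q⟩ hw
      rw [hF, Finset.mem_filter, Finset.mem_product, Finset.mem_product, Finset.mem_product] at hw
      simp only [Finset.mem_Icc] at hw
      exact nd_value_pos ω hli x0 x hw.2 y hw.1.1.2.2.1 q hw.1.2.1)
  have hψ0 : 0 ≤ ψ 0 := h0 0
  refine ⟨c0 / (2 * (ψ 0 + 1)), by positivity, ?_⟩
  rw [Finset.eq_empty_iff_forall_notMem]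
  rintro ⟨x0, x, y⟩ hv
  unfold BV at hv
  rw [Finset.mem_filter] at hv
  obtain ⟨h1, h2, q, h3, h4, p, h5⟩ := hv
  simp only at h2 h5
  have h6 := hmin ((x0, x, y), q) (by
    rw [hF, Finset.mem_filter, Finset.mem_product]
    exact ⟨⟨h1, Finset.mem_Icc.2 ⟨h3, Nat.le_floor h4⟩⟩, h2⟩)
  simp only at h6
  have h7 : nd (q * ((x0 + lf ω x) / y)) ≤ |q * ((x0 + lf ω x) / y) - p| := nd_le _ _
  have h8 : c0 / (2 * (ψ 0 + 1)) * ψ q ≤ c0 / 2 := by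
    have h9 : ψ q ≤ ψ 0 := hanti (Nat.zero_le q)
    calc c0 / (2 * (ψ 0 + 1)) * ψ q ≤ c0 / (2 * (ψ 0 + 1)) * (ψ 0 + 1) := by
          apply mul_le_mul_of_nonneg_left _ (by positivity)
          linarith
      _ = c0 / 2 := by field_simp
  linarith

lemma BV_empty_upto {n : ℕ} (ω : Fin n → ℝ) (hli : Ind ω) (κ : ℝ) (ψ : ℕ → ℝ) (hanti : Antitone ψ)
    (h0 : ∀ q, 0 ≤ ψ q) (H0 : ℕ) :
    ∃ c : ℝ, 0 < c ∧ ∀ H, 1 ≤ H → H ≤ H0 → BV ω ψ c κ H = ∅ := by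
  induction H0 with
  | zero => exact ⟨1, one_pos, fun H h1 h2 => by omega⟩
  | succ K ih =>
    obtain ⟨c, hc, h⟩ := ih
    obtain ⟨c', hc', h'⟩ := BV_empty ω hli κ ψ hanti h0 (K + 1)
    refine ⟨min c c', lt_min hc hc', fun H h1 h2 => ?_⟩
    rw [← Finset.subset_empty]
    rcases Nat.lt_or_ge K H with h3 | h3
    · have : H = K + 1 := by omega
      subst this
      rw [← h']
      exact BV_mono ω ψ h0 (min_le_right _ _) le_rfl _ h1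
    · rw [← h H h1 h3]
      exact BV_mono ω ψ h0 (min_le_left _ _) le_rfl _ h1

/-- **Few bad vectors** -/
theorem eta {n : ℕ} (ω : Fin (n + 1) → ℝ) (halg : ∀ i, IsAlgebraic ℚ (ω i)) (hli : Ind ω)
    (κ : ℝ) (hκ : n = 0 ∨ κ < n + 2) (ψ : ℕ → ℝ) (hanti : Antitone ψ)
    (h0 : ∀ q, 0 ≤ ψ q) (hsum : Summable ψ) (η : ℝ) (hη : 0 < η) :
    ∃ c : ℝ, 0 < c ∧ ∀ H : ℕ, 1 ≤ H → ((BV ω ψ c κ H).card : ℝ) ≤ η * (H : ℝ) ^ (n + 3) := by
  obtain ⟨C, δ, hC, hδ, hu⟩ := uni ω halg hli κ hκ ψ hanti h0 hsum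
  have h1 : Tendsto (fun H : ℕ => (H : ℝ) ^ (-δ)) atTop (𝓝 0) :=
    (tendsto_rpow_neg_atTop hδ).comp tendsto_natCast_atTop_atTop
  have h2 : ∀ᶠ H : ℕ in atTop, (H : ℝ) ^ (-δ) < η / (2 * C) :=
    h1.eventually_lt_const (by positivity)
  obtain ⟨H0, hH0⟩ := Filter.eventually_atTop.1 h2
  obtain ⟨c1, hc1, he⟩ := BV_empty_upto ω hli κ ψ hanti h0 H0
  set c : ℝ := min (min c1 1) (η / (2 * C)) with hc
  have hcp : 0 < c := lt_min (lt_min hc1 one_pos) (by positivity)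
  have hcc1 : c ≤ c1 := (min_le_left _ _).trans (min_le_left _ _)
  have hcc2 : c ≤ 1 := (min_le_left _ _).trans (min_le_right _ _)
  have hcc3 : c ≤ η / (2 * C) := min_le_right _ _
  refine ⟨c, hcp, fun H hH => ?_⟩
  rcases le_total H H0 with h | h
  · have h3 : BV ω ψ c κ H = ∅ := by
      rw [← Finset.subset_empty, ← he H hH h]
      exact BV_mono ω ψ h0 hcc1 le_rfl H hH
    rw [h3, Finset.card_empty, Nat.cast_zero]
    positivity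
  · refine (hu c hcp hcc2 H hH).trans ?_
    apply mul_le_mul_of_nonneg_right _ (by positivity)
    have h3 := (hH0 H h).le
    calc C * (c + (H : ℝ) ^ (-δ)) ≤ C * (η / (2 * C) + η / (2 * C)) :=
          mul_le_mul_of_nonneg_left (by linarith) hC.le
      _ = η := by field_simp; ring

end Pool.Agent.NH20.NF
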